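import Pool.Agent.Lib.MP_322279_an.Series

/-!
An angular profile that is analytic on the axis of the cone and has a zero off the real line.
-/

namespace Pool.Agent.Lib.MP_322279_an.Cap

open Set Metric Filter Topology Complex

/-- Coefficients, in powers of `1 - w`, of the solution that is analytic at `w = 1`. -/
noncomputable def cf (ν : ℂ) : ℕ → ℂ
  | 0 => 1
  | n + 1 => cf ν n * ((2 * n - ν) * (2 * n - ν + 1) / (4 * (n + 1) ^ 2))

/-- The power series with these coefficients solves the equation. -/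
lemma cap_sol {ν : ℂ} {K : ℝ} (b0 : ∀ n, ‖cf ν n‖ ≤ K * 2 ^ n) :
    DifferentiableOn ℂ (fun w => ps (cf ν) (1 - w)) (ball 1 (1 / 8)) ∧
      ∀ w ∈ ball (1 : ℂ) (1 / 8), ode ν (fun w => ps (cf ν) (1 - w)) w = 0 := by
  set c := cf ν with hc
  have b1 := dc_bound (by norm_num) b0
  have b2 := dc_bound (by norm_num) b1
  have nb : ∀ w ∈ ball (1 : ℂ) (1 / 8), ‖1 - w‖ < 1 / 8 := fun w hw => by
    rwa [mem_ball, dist_comm, dist_eq_norm] at hw
  have d0 : ∀ w ∈ ball (1 : ℂ) (1 / 8),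
      HasDerivAt (fun w => ps c (1 - w)) (-ps (dc c) (1 - w)) w := fun w hw =>
    (hasDerivAt_ps (by norm_num) b0 (lt_trans (nb w hw) (by norm_num))).comp_const_sub 1 w
  have d1 : ∀ w ∈ ball (1 : ℂ) (1 / 8),
      HasDerivAt (fun w => -ps (dc c) (1 - w)) (ps (dc (dc c)) (1 - w)) w := fun w hw => by
    have := ((hasDerivAt_ps (by norm_num) b1
      (lt_of_lt_of_le (nb w hw) (by norm_num))).comp_const_sub 1 w).neg
    rw [neg_neg] at this
    exact this
  refine ⟨fun w hw => (d0 w hw).differentiableAt.differentiableWithinAt, fun w hw => ?_⟩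
  have e1 : deriv (fun w => ps c (1 - w)) =ᶠ[𝓝 w] fun w => -ps (dc c) (1 - w) := by
    filter_upwards [isOpen_ball.mem_nhds hw] with y hy using (d0 y hy).deriv
  have hw' := nb w hw
  rw [ode, e1.deriv_eq, (d1 w hw).deriv, (d0 w hw).deriv]
  obtain ⟨t, rfl⟩ : ∃ t, w = 1 - t := ⟨1 - w, by ring⟩
  rw [sub_sub_cancel] at hw' ⊢
  have s0 := (summable_ps (by norm_num) b0 (w := t) (lt_trans hw' (by norm_num))).hasSum
  have s1 := (summable_ps (by norm_num) b1 (w := t) (lt_trans hw' (by norm_num))).hasSum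
  have s2 := (summable_ps (by norm_num) b2 (w := t) (lt_of_lt_of_le hw' (by norm_num))).hasSum
  have t1 : HasSum (fun n : ℕ => (n * c n) * t ^ n) (t * ps (dc c) t) :=
    hasSum_shift (d := fun n => n * c n) (by simp) (by
      have : (fun n : ℕ => (((n + 1 : ℕ) : ℂ) * c (n + 1)) * t ^ n) = fun n => dc c n * t ^ n := by
        funext n; simp [dc]
      rw [this]; exact s1)
  have t2 : HasSum (fun n : ℕ => (n * dc c n) * t ^ n) (t * ps (dc (dc c)) t) :=
    hasSum_shift (d := fun n => n * dc c n) (by simp) (by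
      have : (fun n : ℕ => (((n + 1 : ℕ) : ℂ) * dc c (n + 1)) * t ^ n)
          = fun n => dc (dc c) n * t ^ n := by
        funext n; simp [dc]
      rw [this]; exact s2)
  have t3 : HasSum (fun n : ℕ => ((n - 1) * n * c n) * t ^ n) (t * (t * ps (dc (dc c)) t)) :=
    hasSum_shift (d := fun n => (n - 1) * n * c n) (by simp) (by
      have : (fun n : ℕ => ((((n + 1 : ℕ) : ℂ) - 1) * ((n + 1 : ℕ) : ℂ) * c (n + 1)) * t ^ n)
          = fun n : ℕ => (n * dc c n) * t ^ n := by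
        funext n; simp only [dc]; push_cast; ring
      rw [this]; exact t2)
  have tot := ((((t3.mul_left 4).sub (t2.mul_left 4)).sub (s1.mul_left 4)).sub
    (t1.mul_left (4 * ν - 6))).add (s0.mul_left (ν * (ν - 1)))
  have z : (fun n : ℕ => 4 * (((n - 1) * n * c n) * t ^ n) - 4 * ((n * dc c n) * t ^ n)
      - 4 * (dc c n * t ^ n) - (4 * ν - 6) * ((n * c n) * t ^ n)
      + ν * (ν - 1) * (c n * t ^ n)) = fun _ => 0 := by
    funext n
    have n1 : ((n : ℂ) + 1) ≠ 0 := by exact_mod_cast n.succ_ne_zero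
    have n3 : dc c n * (4 * (n + 1)) = c n * ((2 * n - ν) * (2 * n - ν + 1)) := by
      simp only [dc, hc, cf]
      field_simp
    linear_combination (-t ^ n) * n3
  rw [z] at tot
  have := tot.unique hasSum_zero
  simp only [ps] at this ⊢
  linear_combination this

/-- The exponent. -/
noncomputable def nu0 : ℂ := -9 / 10 + 10 * I

lemma ratio_le (n : ℕ) : ‖(2 * n - nu0) * (2 * n - nu0 + 1) / (4 * (n + 1) ^ 2)‖
    ≤ 1 + 25 / ((n : ℝ) + 1) ^ 2 := by
  have hn : (0 : ℝ) ≤ n := n.cast_nonneg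
  have a3 : ‖((n : ℂ) + 1)‖ = n + 1 := by
    rw [← Nat.cast_succ, Complex.norm_natCast]; push_cast; ring
  have a1 : ‖(2 * n - nu0 : ℂ)‖ ^ 2 ≤ 4 * (n + 1) ^ 2 + 100 := by
    rw [Complex.sq_norm, Complex.normSq_apply]
    simp [nu0]
    nlinarith
  have a2 : ‖(2 * n - nu0 + 1 : ℂ)‖ ^ 2 ≤ 4 * (n + 1) ^ 2 + 100 := by
    rw [Complex.sq_norm, Complex.normSq_apply]
    simp [nu0]
    nlinarith
  rw [norm_div, norm_mul, norm_mul, norm_pow, a3, Complex.norm_ofNat, div_le_iff₀ (by positivity)]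
  have e : (1 + 25 / ((n : ℝ) + 1) ^ 2) * (4 * (n + 1) ^ 2) = 4 * (n + 1) ^ 2 + 100 := by
    field_simp; ring
  rw [e]
  nlinarith [sq_nonneg (‖(2 * n - nu0 : ℂ)‖ - ‖(2 * n - nu0 + 1 : ℂ)‖)]

lemma cf_step (n : ℕ) {B : ℝ} (h : ‖cf nu0 n‖ ≤ B) :
    ‖cf nu0 (n + 1)‖ ≤ B * (1 + 25 / ((n : ℝ) + 1) ^ 2) := by
  rw [cf, norm_mul]
  exact mul_le_mul h (ratio_le n) (norm_nonneg _) ((norm_nonneg _).trans h)

lemma cf_bound (n : ℕ) : ‖cf nu0 n‖ ≤ 115 * 2 ^ n := by
  have h0 : ‖cf nu0 0‖ ≤ 1 := by simp [cf]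
  have h1 := cf_step 0 h0
  have h2 := cf_step 1 h1
  have h3 := cf_step 2 h2
  have h4 := cf_step 3 h3
  rcases Nat.lt_or_ge n 4 with h | h
  · interval_cases n
    · exact h0.trans (by norm_num)
    · exact h1.trans (by norm_num)
    · exact h2.trans (by norm_num)
    · exact h3.trans (by norm_num)
  · induction n, h using Nat.le_induction with
    | base => exact h4.trans (by norm_num)
    | succ n hn ih =>
      refine (cf_step n ih).trans ?_
      have : (4 : ℝ) ≤ n := by exact_mod_cast hn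
      have : 25 / ((n : ℝ) + 1) ^ 2 ≤ 1 := by
        rw [div_le_one (by positivity)]; nlinarith
      rw [pow_succ (2 : ℝ) n, ← mul_assoc]
      gcongr
      linarith

lemma tail_le {c : ℕ → ℂ} (hc : ∀ n, ‖c n‖ ≤ 115 * 2 ^ n) {z : ℂ} (hz : ‖z‖ ≤ 3 / 50) :
    ‖ps c z - (c 0 + c 1 * z + c 2 * z ^ 2 + c 3 * z ^ 3 + c 4 * z ^ 4)‖ ≤ 1 / 250 := by
  have s := summable_ps (by norm_num) hc (w := z) (hz.trans_lt (by norm_num))
  have e := s.sum_add_tsum_nat_add 5
  simp only [Finset.sum_range_succ, Finset.range_zero, Finset.sum_empty, zero_add, pow_zero,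
    mul_one, pow_one] at e
  rw [ps, ← e, add_sub_cancel_left]
  have g := (hasSum_geometric_of_lt_one (r := 3 / 25) (by norm_num) (by norm_num)).mul_left
    (115 * (3 / 25) ^ 5)
  refine (tsum_of_norm_bounded g fun n => ?_).trans (by norm_num)
  rw [norm_mul, norm_pow]
  calc ‖c (n + 5)‖ * ‖z‖ ^ (n + 5) ≤ (115 * 2 ^ (n + 5)) * (3 / 50) ^ (n + 5) := by
        gcongr; exact hc _
    _ = 115 * (3 / 25) ^ 5 * (3 / 25) ^ n := by
      rw [mul_assoc, ← mul_pow, pow_add, show (2 : ℝ) * (3 / 50) = 3 / 25 by norm_num]; ring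

/-- The minimum modulus principle. -/
lemma exists_zero_of_sphere {f : ℂ → ℂ} {z₀ : ℂ} {r ε : ℝ} (hr : 0 < r)
    (hf : DifferentiableOn ℂ f (closedBall z₀ r)) (hs : ∀ z ∈ sphere z₀ r, ε ≤ ‖f z‖)
    (h0 : ‖f z₀‖ < ε) : ∃ z ∈ closedBall z₀ r, f z = 0 := by
  by_contra H
  push Not at H
  have e0 : 0 < ε := (norm_nonneg _).trans_lt h0
  have d : DiffContOnCl ℂ (fun z => (f z)⁻¹) (ball z₀ r) := by
    refine DifferentiableOn.diffContOnCl ?_
    rw [closure_ball _ hr.ne']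
    exact hf.inv H
  have := Complex.norm_le_of_forall_mem_frontier_norm_le isBounded_ball d (C := ε⁻¹)
    (fun z hz => by
      rw [frontier_ball _ hr.ne'] at hz
      rw [norm_inv]
      exact inv_anti₀ e0 (hs z hz)) (subset_closure (mem_ball_self hr))
  rw [norm_inv, inv_le_inv₀ (norm_pos_iff.2 (H z₀ (mem_closedBall_self hr.le))) e0] at this
  linarith

/-- An approximate zero. -/
noncomputable def z0 : ℂ := 111 / 2000 - 43 / 10000 * I

lemma z0_norm : ‖z0‖ ≤ 57 / 1000 := by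
  refine le_of_pow_le_pow_left₀ two_ne_zero (by norm_num) ?_
  rw [Complex.sq_norm, Complex.normSq_apply]
  simp [z0]
  norm_num

lemma cf1 : cf nu0 1 = -9829 / 400 - 7 * I := by
  simp [cf, nu0, Complex.ext_iff]; norm_num

lemma cf2 : cf nu0 2 = 68133401 / 640000 + 28647 / 200 * I := by
  rw [cf, cf1]
  simp [nu0, Complex.ext_iff, pow_two]; norm_num

lemma cf3 : cf nu0 3 = 505679972291 / 2304000000 - 385423779 / 640000 * I := by
  rw [cf, cf2]
  simp [nu0, Complex.ext_iff, pow_two]; norm_num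

lemma cf4 : cf nu0 4 = -22835717139071759 / 14745600000000 - 366315504841 / 4608000000 * I := by
  rw [cf, cf3]
  simp [nu0, Complex.ext_iff, pow_two]; norm_num

lemma b0_le : ‖cf nu0 0 + cf nu0 1 * z0 + cf nu0 2 * z0 ^ 2 + cf nu0 3 * z0 ^ 3
    + cf nu0 4 * z0 ^ 4‖ ≤ 1 / 400 := by
  refine (Complex.norm_le_abs_re_add_abs_im _).trans ?_
  rw [cf1, cf2, cf3, cf4]
  simp [cf, z0, pow_succ]
  norm_num [abs_of_nonneg, abs_of_nonpos]

lemma b1_ge : 11 ≤ ‖cf nu0 1 + 2 * cf nu0 2 * z0 + 3 * cf nu0 3 * z0 ^ 2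
    + 4 * cf nu0 4 * z0 ^ 3‖ := by
  refine le_trans ?_ (Complex.abs_re_le_norm _)
  rw [cf1, cf2, cf3, cf4]
  simp [z0, pow_succ]
  norm_num [abs_of_nonneg, abs_of_nonpos]

lemma exists_ps_zero : ∃ z : ℂ, z.im < 0 ∧ ‖z‖ ≤ 3 / 50 ∧ ps (cf nu0) z = 0 := by
  have nb : ∀ z ∈ closedBall z0 (3 / 1000), ‖z‖ ≤ 3 / 50 := fun z hz => by
    have := norm_le_of_mem_closedBall hz
    linarith [z0_norm]
  have t0 := tail_le cf_bound (z0_norm.trans (by norm_num))
  have p0 := b0_le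
  have p1 := b1_ge
  have q2 := cf_bound 2
  have q3 := cf_bound 3
  have q4 := cf_bound 4
  have n0 := z0_norm
  obtain ⟨z, hz, h⟩ := exists_zero_of_sphere (f := ps (cf nu0)) (z₀ := z0) (r := 3 / 1000)
    (ε := 1 / 100) (by norm_num) (fun z hz => (hasDerivAt_ps (by norm_num) cf_bound
      ((nb z hz).trans_lt (by norm_num))).differentiableAt.differentiableWithinAt)
    (fun z hz => by
      have t := tail_le cf_bound (nb z (sphere_subset_closedBall hz))
      obtain ⟨d, rfl⟩ : ∃ d, z = z0 + d := ⟨z - z0, by ring⟩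
      have hd : ‖d‖ = 3 / 1000 := by simpa using hz
      generalize cf nu0 = c at *
      generalize ps c (z0 + d) = P at *
      generalize z0 = y at *
      have r2 : ‖(c 2 + 3 * c 3 * y + 6 * c 4 * y ^ 2) * d ^ 2 + (c 3 + 4 * c 4 * y) * d ^ 3
          + c 4 * d ^ 4‖ ≤ 7 / 1000 := by
        have k2 : ‖c 2 + 3 * c 3 * y + 6 * c 4 * y ^ 2‖ ≤ 115 * 2 ^ 2 + 3 * (115 * 2 ^ 3) * (57 / 1000)
            + 6 * (115 * 2 ^ 4) * (57 / 1000) ^ 2 := by
          refine norm_add₃_le.trans ?_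
          simp only [norm_mul, norm_pow, Complex.norm_ofNat]
          gcongr
        have k3 : ‖c 3 + 4 * c 4 * y‖ ≤ 115 * 2 ^ 3 + 4 * (115 * 2 ^ 4) * (57 / 1000) := by
          refine (norm_add_le _ _).trans ?_
          simp only [norm_mul, Complex.norm_ofNat]
          gcongr
        refine norm_add₃_le.trans ?_
        simp only [norm_mul, norm_pow, hd]
        linarith
      have e : (c 1 + 2 * c 2 * y + 3 * c 3 * y ^ 2 + 4 * c 4 * y ^ 3) * d
          = P - (P - (c 0 + c 1 * (y + d) + c 2 * (y + d) ^ 2 + c 3 * (y + d) ^ 3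
            + c 4 * (y + d) ^ 4)) - (c 0 + c 1 * y + c 2 * y ^ 2 + c 3 * y ^ 3 + c 4 * y ^ 4)
            - ((c 2 + 3 * c 3 * y + 6 * c 4 * y ^ 2) * d ^ 2 + (c 3 + 4 * c 4 * y) * d ^ 3
              + c 4 * d ^ 4) := by ring
      have k := congrArg norm e
      rw [norm_mul, hd] at k
      have k1 := norm_sub_le (P - (P - (c 0 + c 1 * (y + d) + c 2 * (y + d) ^ 2
        + c 3 * (y + d) ^ 3 + c 4 * (y + d) ^ 4))
        - (c 0 + c 1 * y + c 2 * y ^ 2 + c 3 * y ^ 3 + c 4 * y ^ 4))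
        ((c 2 + 3 * c 3 * y + 6 * c 4 * y ^ 2) * d ^ 2 + (c 3 + 4 * c 4 * y) * d ^ 3 + c 4 * d ^ 4)
      have k2 := norm_sub_le (P - (P - (c 0 + c 1 * (y + d) + c 2 * (y + d) ^ 2
        + c 3 * (y + d) ^ 3 + c 4 * (y + d) ^ 4)))
        (c 0 + c 1 * y + c 2 * y ^ 2 + c 3 * y ^ 3 + c 4 * y ^ 4)
      have k3 := norm_sub_le P (P - (c 0 + c 1 * (y + d) + c 2 * (y + d) ^ 2
        + c 3 * (y + d) ^ 3 + c 4 * (y + d) ^ 4))
      linarith)
    (by
      have := norm_le_norm_add_norm_sub' (ps (cf nu0) z0) (cf nu0 0 + cf nu0 1 * z0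
        + cf nu0 2 * z0 ^ 2 + cf nu0 3 * z0 ^ 3 + cf nu0 4 * z0 ^ 4)
      linarith)
  refine ⟨z, ?_, nb z hz, h⟩
  have k := (Complex.abs_im_le_norm (z - z0)).trans (mem_closedBall_iff_norm.1 hz)
  have : z0.im = -43 / 10000 := by simp [z0]; norm_num
  rw [Complex.sub_im, this] at k
  linarith [(abs_le.1 k).2]

/-- For every opening `δ` there is a profile, regular on the axis, that vanishes on the cone. -/
theorem exists_cap_profile {δ : ℝ} (hδ : 0 < δ) : ∃ (ν a : ℂ) (U : Set ℂ) (h : ℂ → ℂ),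
    -1 < ν.re ∧ ν.re < -1 / 2 ∧ 0 < a.im ∧ IsOpen U ∧
    (∀ σ : ℝ, 0 ≤ σ → σ ≤ δ → 1 + a * σ ∈ U) ∧ DifferentiableOn ℂ h U ∧
    (∀ w ∈ U, ode ν h w = 0) ∧ h (1 + a * δ) = 0 ∧ h 1 ≠ 0 := by
  obtain ⟨z, z1, z2, z3⟩ := exists_ps_zero
  obtain ⟨c1, c2⟩ := cap_sol cf_bound
  have r : nu0.re = -9 / 10 := by simp [nu0]
  have d0 : (δ : ℂ) ≠ 0 := by exact_mod_cast hδ.ne'
  refine ⟨nu0, -z / δ, ball 1 (1 / 8), _, by rw [r]; norm_num, by rw [r]; norm_num, ?_,
    isOpen_ball, fun σ s1 s2 => ?_, c1, c2, ?_, ?_⟩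
  · rw [Complex.div_ofReal_im]
    exact div_pos (by simpa using z1) hδ
  · rw [mem_ball_iff_norm, add_sub_cancel_left, norm_mul, norm_div, norm_neg, Complex.norm_real,
      Complex.norm_real, Real.norm_of_nonneg hδ.le, Real.norm_of_nonneg s1]
    calc _ ≤ ‖z‖ / δ * δ := by gcongr
      _ < _ := by rw [div_mul_cancel₀ _ hδ.ne']; linarith
  · rw [div_mul_cancel₀ _ d0]
    simpa using z3
  · rw [sub_self, ps, tsum_eq_single 0]
    · simp [cf]
    · intro n hn; simp [hn]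

end Pool.Agent.Lib.MP_322279_an.Cap
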