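import Pool.Agent.Lib.MP_322279_an.Weak

/-!
A cut-off function and approximation of smooth functions vanishing on the boundary by test
functions.
-/

namespace Pool.Agent.Lib.MP_322279_an

open MeasureTheory Set Filter Topology
open scoped ContDiff

variable {Ω D K : Set E3} {φ ψ : E3 → ℂ}

/-- A smooth step from `0` to `1` on the interval `[1, 2]`. -/
noncomputable def chi (t : ℝ) : ℂ := Real.smoothTransition (t - 1)

lemma cd_chi : ContDiff ℝ ∞ chi :=
  Complex.ofRealCLM.contDiff.comp (Real.smoothTransition.contDiff.comp (contDiff_id.sub contDiff_const))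

lemma cd_chi1 : ContDiff ℝ ∞ (deriv chi) := by simpa using cd_chi.iterate_deriv 1

lemma cd_chi2 : ContDiff ℝ ∞ (deriv (deriv chi)) := by simpa using cd_chi1.iterate_deriv 1

lemma hd_chi (t : ℝ) : HasDerivAt chi (deriv chi t) t :=
  (cd_chi.differentiable (by simp) t).hasDerivAt

lemma hd_chi1 (t : ℝ) : HasDerivAt (deriv chi) (deriv (deriv chi) t) t :=
  (cd_chi1.differentiable (by simp) t).hasDerivAt

lemma chi_zero {t : ℝ} (h : t ≤ 1) : chi t = 0 := by
  rw [chi, Real.smoothTransition.zero_of_nonpos (by linarith)]; rfl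

lemma chi_one {t : ℝ} (h : 2 ≤ t) : chi t = 1 := by
  rw [chi, Real.smoothTransition.one_of_one_le (by linarith)]; rfl

lemma chi_deriv {t : ℝ} (h : t ∉ Icc (1 : ℝ) 2) : deriv chi t = 0 ∧ deriv (deriv chi) t = 0 := by
  obtain ⟨c, hc⟩ : ∃ c : ℂ, chi =ᶠ[𝓝 t] fun _ => c := by
    rcases lt_or_ge t 1 with h1 | h1
    · exact ⟨0, (gt_mem_nhds h1).mono fun s hs => chi_zero hs.le⟩
    · exact ⟨1, (lt_mem_nhds (not_le.1 fun h2 => h ⟨h1, h2⟩)).mono fun s hs => chi_one hs.le⟩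
  exact ⟨by simpa using hc.deriv_eq, by simpa using hc.deriv.deriv_eq⟩

lemma chi_bound : ∃ C, 0 ≤ C ∧ ∀ t : ℝ, ‖chi t‖ ≤ 1 ∧ ‖deriv chi t‖ ≤ C ∧ |t| * ‖deriv chi t‖ ≤ C
    ∧ ‖deriv (deriv chi) t‖ ≤ C := by
  obtain ⟨C1, h1⟩ := (isCompact_Icc (a := (1 : ℝ)) (b := 2)).exists_bound_of_continuousOn
    cd_chi1.continuous.continuousOn
  obtain ⟨C2, h2⟩ := (isCompact_Icc (a := (1 : ℝ)) (b := 2)).exists_bound_of_continuousOn
    cd_chi2.continuous.continuousOn
  have p1 : 0 ≤ C1 := (norm_nonneg _).trans (h1 1 (by simp))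
  have p2 : 0 ≤ C2 := (norm_nonneg _).trans (h2 1 (by simp))
  refine ⟨2 * C1 + C2, by positivity, fun t => ⟨?_, ?_⟩⟩
  · rw [chi, Complex.norm_real, Real.norm_of_nonneg (Real.smoothTransition.nonneg _)]
    exact Real.smoothTransition.le_one _
  by_cases ht : t ∈ Icc (1 : ℝ) 2
  · have := h1 t ht
    have := h2 t ht
    have : |t| * ‖deriv chi t‖ ≤ 2 * C1 :=
      mul_le_mul (abs_le.2 ⟨by linarith [ht.1], ht.2⟩) (h1 t ht) (norm_nonneg _) (by norm_num)
    exact ⟨by linarith, by linarith, by linarith⟩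
  · simp only [(chi_deriv ht).1, (chi_deriv ht).2, norm_zero, mul_zero]
    exact ⟨by positivity, by positivity, by positivity⟩

lemma tendsto_eLp {μ : Measure E3} [IsFiniteMeasure μ] {F : ℕ → E3 → ℂ} {C : ℝ}
    (hm : ∀ k, AEStronglyMeasurable (F k) μ) (hb : ∀ k, ∀ᵐ x ∂μ, ‖F k x‖ ≤ C)
    (hl : ∀ᵐ x ∂μ, ∀ᶠ k in atTop, F k x = 0) :
    Tendsto (fun k => eLpNorm (F k) 2 μ) atTop (𝓝 0) := by
  have m : ∀ k, MemLp (F k) 2 μ := fun k => MemLp.of_bound (hm k) C (hb k)
  have h1 : Tendsto (fun k => ∫ x, ‖F k x‖ ^ 2 ∂μ) atTop (𝓝 (∫ _, (0 : ℝ) ∂μ)) := by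
    refine tendsto_integral_of_dominated_convergence (fun _ => C ^ 2)
      (fun k => (hm k).norm.pow 2) (integrable_const _) (fun k => (hb k).mono fun x hx => ?_)
      (hl.mono fun x hx => tendsto_const_nhds.congr' (hx.mono fun k hk => by simp [hk]))
    rw [norm_pow, norm_norm]
    exact pow_le_pow_left₀ (norm_nonneg _) hx 2
  have z : MemLp (0 : E3 → ℂ) 2 μ := MemLp.zero
  have h2 : Tendsto (fun k => (m k).toLp (F k)) atTop (𝓝 (z.toLp 0)) := by
    rw [MemLp.toLp_zero, tendsto_zero_iff_norm_tendsto_zero]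
    have h3 := h1.sqrt
    rw [integral_zero, Real.sqrt_zero] at h3
    refine h3.congr fun k => ?_
    rw [← norm_sq_toLp (m k), Real.sqrt_sq (norm_nonneg _)]
  exact ((Lp.tendsto_Lp_iff_tendsto_eLpNorm'' F m 0 z).1 h2).congr fun k => by rw [sub_zero]

lemma isTest_of_compact (hK : IsCompact K) (hD : IsOpen D) (h1 : K ⊆ Ω) (h2 : K ⊆ D)
    (h : ContDiffOn ℝ ∞ φ D) (h0 : ∀ x, x ∉ K → φ x = 0) : IsTest Ω φ := by
  have s : tsupport φ ⊆ K := closure_minimal (fun x hx => by_contra fun h => hx (h0 x h)) hK.isClosed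
  refine ⟨contDiff_iff_contDiffAt.2 fun y => ?_, HasCompactSupport.intro hK h0, s.trans h1⟩
  by_cases hy : y ∈ tsupport φ
  · exact h.contDiffAt (hD.mem_nhds (h2 (s hy)))
  · exact (contDiffAt_const (c := (0 : ℂ))).congr_of_eventuallyEq
      (notMem_tsupport_iff_eventuallyEq.1 hy)

/-- Smooth on `D` and zero on the part of `Ω` outside `K`. -/
def Good (Ω D K : Set E3) (ψ : E3 → ℂ) : Prop :=
  ContDiffOn ℝ ∞ ψ D ∧ ∀ x ∈ Ω, x ∉ K → ψ x = 0

lemma Good.dpd (h : Good Ω D K ψ) (hΩ : IsOpen Ω) (hD : IsOpen D) (hK : IsCompact K) (i : Fin 3) :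
    Good Ω D K (pd i ψ) := by
  refine ⟨contDiffOn_pd hD h.1, fun x hx hx' => ?_⟩
  have : ψ =ᶠ[𝓝 x] fun _ => 0 := by
    filter_upwards [hΩ.mem_nhds hx, hK.isClosed.isOpen_compl.mem_nhds hx'] with y a b
    exact h.2 y a b
  rw [pd_congr this, pd_const]

lemma Good.bound (h : Good Ω D K ψ) (hK : IsCompact K) (h2 : K ⊆ D) :
    ∃ C, 0 ≤ C ∧ ∀ x ∈ Ω, ‖ψ x‖ ≤ C := by
  obtain ⟨C, hC⟩ := hK.exists_bound_of_continuousOn (h.1.continuousOn.mono h2)
  refine ⟨max C 0, le_max_right _ _, fun x hx => ?_⟩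
  by_cases hx' : x ∈ K
  · exact (hC x hx').trans (le_max_left _ _)
  · simp [h.2 x hx hx']

lemma Good.memLp [IsFiniteMeasure (volume.restrict Ω)] (h : Good Ω D K ψ) (hΩ : IsOpen Ω)
    (h1 : Ω ⊆ D) (hK : IsCompact K) (h2 : K ⊆ D) : MemLp ψ 2 (volume.restrict Ω) := by
  obtain ⟨C, -, hC⟩ := h.bound hK h2
  exact MemLp.of_bound ((h.1.continuousOn.mono h1).aestronglyMeasurable hΩ.measurableSet) C
    ((ae_restrict_mem hΩ.measurableSet).mono hC)

/-- A smooth function that vanishes on the boundary lies in the Sobolev space. -/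
lemma Good.hg [IsFiniteMeasure (volume.restrict Ω)] (h : Good Ω D K ψ) (hΩ : IsOpen Ω)
    (hD : IsOpen D) (h1 : Ω ⊆ D) (hK : IsCompact K) (h2 : K ⊆ D) {b : E3 → ℝ} {M : ℝ}
    (hb : ContDiff ℝ ∞ b) (b1 : ∀ x ∈ Ω, 0 < b x) (b2 : ∀ x ∈ K, 0 < b x → x ∈ Ω)
    (b3 : ∀ x, x ∉ K → ψ x = 0 ∨ b x ≤ 0) (b4 : ∀ x ∈ Ω, ‖ψ x‖ ≤ M * b x) :
    HG Ω ψ fun i => pd i ψ := by
  obtain ⟨C, C0, hC⟩ := chi_bound
  have cd : ∀ k : ℕ, ContDiff ℝ ∞ fun x => chi (k * b x) := fun k =>
    cd_chi.comp (contDiff_const.mul hb)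
  have ms := ae_restrict_mem (μ := volume) hΩ.measurableSet
  have ev : ∀ x ∈ Ω, ∀ᶠ k : ℕ in atTop, 2 < k * b x := fun x hx =>
    (tendsto_natCast_atTop_atTop.atTop_mul_const (b1 x hx)).eventually_gt_atTop 2
  have ts : ∀ k : ℕ, IsTest Ω fun x => ψ x * chi (k * b x) := fun k => by
    refine isTest_of_compact (K := K ∩ {x | 1 ≤ k * b x}) (hK.inter_right
      (isClosed_le continuous_const (continuous_const.mul hb.continuous))) hD
      (fun x hx => b2 x hx.1 ?_) (inter_subset_left.trans h2) (h.1.mul (cd k).contDiffOn)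
      fun x hx => ?_
    · exact pos_of_mul_pos_right (a := (k : ℝ)) (lt_of_lt_of_le one_pos hx.2) (Nat.cast_nonneg k)
    · by_cases hx' : x ∈ K
      · rw [chi_zero (le_of_not_ge fun h => hx ⟨hx', h⟩), mul_zero]
      · rcases b3 x hx' with h | h
        · rw [h, zero_mul]
        · rw [chi_zero (by nlinarith [Nat.cast_nonneg (α := ℝ) k]), mul_zero]
  refine ⟨h.memLp hΩ h1 hK h2, fun i => (h.dpd hΩ hD hK i).memLp hΩ h1 hK h2, _, ts, ?_, fun i => ?_⟩
  · obtain ⟨B, B0, hB⟩ := h.bound hK h2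
    refine tendsto_eLp (C := B + B) (fun k => ((ts k).memLp _).1.sub (h.memLp hΩ h1 hK h2).1)
      (fun k => ms.mono fun x hx => (norm_sub_le _ _).trans (add_le_add ?_ (hB x hx)))
      (ms.mono fun x hx => (ev x hx).mono fun k hk => by simp [chi_one hk.le])
    rw [norm_mul]
    exact (mul_le_of_le_one_right (norm_nonneg _) (hC _).1).trans (hB x hx)
  · obtain ⟨B, B0, hB⟩ := (h.dpd hΩ hD hK i).bound hK h2
    obtain ⟨B', hB'⟩ := hK.exists_bound_of_continuousOn
      (f := fun x => fderiv ℝ b x (EuclideanSpace.single i 1))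
      ((hb.continuous_fderiv (by simp)).clm_apply continuous_const).continuousOn
    have e : ∀ k : ℕ, ∀ x ∈ Ω, pd i (fun x => ψ x * chi (k * b x)) x
        = pd i ψ x * chi (k * b x)
          + ψ x * ((k * fderiv ℝ b x (EuclideanSpace.single i 1) : ℝ) * deriv chi (k * b x)) := by
      intro k x hx
      have db := hb.differentiable (by simp) x
      rw [pd_mul (diffAt hD h.1 (h1 hx)) ((cd k).differentiable (by simp) x),
        pd_comp_real (b := fun x => k * b x) (db.const_mul _) (hd_chi _), fderiv_const_mul db]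
      rfl
    refine tendsto_eLp (C := (B + |M| * |B'| * C) + B)
      (fun k => (((ts k).dpd i).memLp _).1.sub ((h.dpd hΩ hD hK i).memLp hΩ h1 hK h2).1)
      (fun k => ms.mono fun x hx => (norm_sub_le _ _).trans (add_le_add ?_ (hB x hx)))
      (ms.mono fun x hx => (ev x hx).mono fun k hk => ?_)
    · rw [e k x hx]
      refine (norm_add_le _ _).trans (add_le_add ?_ ?_)
      · rw [norm_mul]
        exact (mul_le_of_le_one_right (norm_nonneg _) (hC _).1).trans (hB x hx)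
      by_cases hx' : x ∈ K
      · have q := (hC (k * b x)).2.2.1
        have bp := b1 x hx
        rw [abs_of_nonneg (by positivity)] at q
        rw [norm_mul, norm_mul, Complex.norm_real, norm_mul, Real.norm_natCast]
        calc _ ≤ |M| * b x * (k * |B'| * ‖deriv chi (k * b x)‖) := by
              gcongr
              · exact (b4 x hx).trans (mul_le_mul_of_nonneg_right (le_abs_self _) bp.le)
              · exact (hB' x hx').trans (le_abs_self _)
          _ = |M| * |B'| * (k * b x * ‖deriv chi (k * b x)‖) := by ring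
          _ ≤ _ := by gcongr
      · rw [h.2 x hx hx', zero_mul, norm_zero]; positivity
    · rw [Pi.sub_apply, e k x hx, chi_one hk.le, (chi_deriv fun h => hk.not_ge h.2).1]
      simp

/-- The weak equation and Green's formula combined. -/
lemma Good.dual [IsFiniteMeasure (volume.restrict Ω)] (h : Good Ω D K ψ) (hΩ : IsOpen Ω)
    (hD : IsOpen D) (h1 : Ω ⊆ D) (hK : IsCompact K) (h2 : K ⊆ D) (hψ : HG Ω ψ fun i => pd i ψ)
    {d : Fin 3 → ℂ} {u f : E3 → ℂ} {g : Fin 3 → E3 → ℂ} (hu : HG Ω u g)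
    (hf : MemLp f 2 (volume.restrict Ω))
    (w : ∀ φ, IsTest Ω φ → ∑ i, d i * ∫ x in Ω, g i x * pd i φ x = -∫ x in Ω, f x * φ x) :
    ∫ x in Ω, u x * op (diagM d) ψ x = ∫ x in Ω, f x * ψ x := by
  have m : MemLp (op (diagM d) ψ) 2 (volume.restrict Ω) := by
    have : op (diagM d) ψ = fun x => ∑ i, d i * pd i (pd i ψ) x := funext op_diag
    rw [this]
    exact memLp_finsetSum _ fun i _ =>
      (((h.dpd hΩ hD hK i).dpd hΩ hD hK i).memLp hΩ h1 hK h2).const_mul _
  exact neg_injective ((hu.green hΩ (h.1.mono h1) hψ.2.1 m).symm.trans (hψ.extend hu.2.1 hf w))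

end Pool.Agent.Lib.MP_322279_an
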