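import Pool.Agent.Lib.MP_322279_an.Defs

/-!
Calculus for coordinate derivatives, integration by parts against test functions and a Hardy type
inequality.
-/

namespace Pool.Agent.Lib.MP_322279_an

open MeasureTheory Set Filter Topology ComplexConjugate
open scoped ContDiff

variable {Ω D : Set E3} {φ ψ : E3 → ℂ} {x : E3} {i : Fin 3}

lemma pd_congr (h : φ =ᶠ[𝓝 x] ψ) : pd i φ x = pd i ψ x := by rw [pd, pd, h.fderiv_eq]

lemma pd_congr' (h : φ =ᶠ[𝓝 x] ψ) : pd i φ =ᶠ[𝓝 x] pd i ψ :=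
  h.eventuallyEq_nhds.mono fun _ hy => pd_congr hy

lemma pd_add (h1 : DifferentiableAt ℝ φ x) (h2 : DifferentiableAt ℝ ψ x) :
    pd i (fun y => φ y + ψ y) x = pd i φ x + pd i ψ x := by
  rw [pd, fderiv_fun_add h1 h2]; rfl

lemma pd_mul (h1 : DifferentiableAt ℝ φ x) (h2 : DifferentiableAt ℝ ψ x) :
    pd i (fun y => φ y * ψ y) x = pd i φ x * ψ x + φ x * pd i ψ x := by
  rw [pd, fderiv_fun_mul h1 h2]
  simp only [add_apply, smul_apply, smul_eq_mul, pd]
  ring

lemma pd_const (c : ℂ) : pd i (fun _ => c) x = 0 := by simp [pd]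

lemma pd_const_mul (c : ℂ) (h : DifferentiableAt ℝ φ x) :
    pd i (fun y => c * φ y) x = c * pd i φ x := by
  rw [pd_mul (differentiableAt_const c) h, pd_const]; ring

lemma pd_conj (h : DifferentiableAt ℝ φ x) :
    pd i (fun y => conj (φ y)) x = conj (pd i φ x) := by
  have := (Complex.conjCLE.toContinuousLinearMap.hasFDerivAt (x := φ x)).comp x h.hasFDerivAt
  rw [pd, pd]
  exact congrArg (fun L : E3 →L[ℝ] ℂ => L (EuclideanSpace.single i 1)) this.fderiv

lemma pd_comp_real {G : ℝ → ℂ} {G' : ℂ} {b : E3 → ℝ} (hb : DifferentiableAt ℝ b x)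
    (hG : HasDerivAt G G' (b x)) :
    pd i (fun y => G (b y)) x = fderiv ℝ b x (EuclideanSpace.single i 1) * G' := by
  have := hG.hasFDerivAt.comp x hb.hasFDerivAt
  rw [pd]
  refine (congrArg (fun L : E3 →L[ℝ] ℂ => L (EuclideanSpace.single i 1)) this.fderiv).trans ?_
  simp

lemma pd_comp_complex {G : ℂ → ℂ} {G' : ℂ} (hb : DifferentiableAt ℝ φ x)
    (hG : HasDerivAt G G' (φ x)) : pd i (fun y => G (φ y)) x = pd i φ x * G' := by
  have := (hG.hasFDerivAt.restrictScalars ℝ).comp x hb.hasFDerivAt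
  rw [pd]
  refine (congrArg (fun L : E3 →L[ℝ] ℂ => L (EuclideanSpace.single i 1)) this.fderiv).trans ?_
  simp [pd]

lemma fderiv_coord (j : Fin 3) :
    fderiv ℝ (fun y : E3 => y j) x (EuclideanSpace.single i 1) = if j = i then 1 else 0 := by
  have : fderiv ℝ (fun y : E3 => y j) x = EuclideanSpace.proj j :=
    (EuclideanSpace.proj (𝕜 := ℝ) j).fderiv
  rw [this]
  simp [Pi.single_apply]

lemma contDiffOn_pd (hD : IsOpen D) (h : ContDiffOn ℝ ∞ φ D) : ContDiffOn ℝ ∞ (pd i φ) D :=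
  (h.fderiv_of_isOpen hD (by simp)).clm_apply contDiffOn_const

lemma contDiff_pd (h : ContDiff ℝ ∞ φ) : ContDiff ℝ ∞ (pd i φ) :=
  contDiffOn_univ.1 (contDiffOn_pd isOpen_univ h.contDiffOn)

lemma diffAt (hD : IsOpen D) (h : ContDiffOn ℝ ∞ φ D) (hx : x ∈ D) : DifferentiableAt ℝ φ x :=
  (h.contDiffAt (hD.mem_nhds hx)).differentiableAt (by simp)

lemma pd_eq_zero (h : x ∉ tsupport φ) : pd i φ x = 0 := by
  rw [pd_congr (notMem_tsupport_iff_eventuallyEq.1 h)]; exact pd_const 0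

lemma tsupport_pd : tsupport (pd i φ) ⊆ tsupport φ :=
  closure_minimal (fun _ hx => by_contra fun h => hx (pd_eq_zero h)) (isClosed_tsupport φ)

lemma IsTest.diff (h : IsTest Ω φ) (x : E3) : DifferentiableAt ℝ φ x :=
  h.1.differentiable (by simp) x

lemma IsTest.dpd (h : IsTest Ω φ) (i : Fin 3) : IsTest Ω (pd i φ) :=
  ⟨contDiff_pd h.1, h.2.1.mono' (subset_closure.trans tsupport_pd), tsupport_pd.trans h.2.2⟩

lemma IsTest.cj (h : IsTest Ω φ) : IsTest Ω fun y => conj (φ y) :=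
  ⟨Complex.conjCLE.contDiff.comp h.1, h.2.1.comp_left (g := fun z : ℂ => conj z) (by simp),
    (closure_mono (Function.support_comp_subset (g := fun z : ℂ => conj z) (by simp) φ)).trans h.2.2⟩

lemma IsTest.add (h : IsTest Ω φ) (h' : IsTest Ω ψ) : IsTest Ω fun y => φ y + ψ y :=
  ⟨h.1.add h'.1, h.2.1.add h'.2.1, (tsupport_add φ ψ).trans (union_subset h.2.2 h'.2.2)⟩

lemma IsTest.mul (h : IsTest Ω φ) (hD : IsOpen D) (hΩ : tsupport φ ⊆ D) (h' : ContDiffOn ℝ ∞ ψ D) :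
    IsTest Ω fun y => φ y * ψ y := by
  refine ⟨contDiff_iff_contDiffAt.2 fun y => ?_, h.2.1.mul_right, tsupport_mul_subset_left.trans h.2.2⟩
  by_cases hy : y ∈ tsupport φ
  · exact h.1.contDiffAt.mul (h'.contDiffAt (hD.mem_nhds (hΩ hy)))
  · refine (contDiffAt_const (c := (0 : ℂ))).congr_of_eventuallyEq ?_
    filter_upwards [notMem_tsupport_iff_eventuallyEq.1 hy] with z hz
    simp [hz]

lemma isTest_zero : IsTest Ω fun _ => 0 :=
  ⟨contDiff_const, HasCompactSupport.zero, by simp [tsupport]⟩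

lemma IsTest.integrable (h : IsTest Ω φ) : Integrable φ :=
  h.1.continuous.integrable_of_hasCompactSupport h.2.1

lemma IsTest.memLp (h : IsTest Ω φ) (μ : Measure E3) [IsFiniteMeasureOnCompacts μ] :
    MemLp φ 2 μ := h.1.continuous.memLp_of_hasCompactSupport h.2.1

lemma IsTest.setIntegral (h : IsTest Ω φ) : ∫ x in Ω, φ x = ∫ x, φ x :=
  setIntegral_eq_integral_of_forall_compl_eq_zero fun _ hx =>
    image_eq_zero_of_notMem_tsupport fun h' => hx (h.2.2 h')

lemma IsTest.integral_pd (h : IsTest Ω φ) (i : Fin 3) : ∫ x in Ω, pd i φ x = 0 := by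
  rw [(h.dpd i).setIntegral]
  have := integral_mul_fderiv_eq_neg_fderiv_mul_of_integrable (μ := volume)
    (f := fun _ : E3 => (1 : ℂ)) (g := φ) (v := EuclideanSpace.single i 1) (by simp)
    (by simp only [one_mul]; exact (h.dpd i).integrable) (by simpa only [one_mul] using h.integrable)
    (fun x _ => differentiableAt_const _) (fun x _ => h.diff x)
  simpa [pd] using this

/-- Integration by parts against a test function. -/
lemma IsTest.ibp (h : IsTest Ω φ) (hΩ : IsOpen Ω) (h' : ContDiffOn ℝ ∞ ψ Ω) (i : Fin 3) :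
    ∫ x in Ω, pd i φ x * ψ x = -∫ x in Ω, φ x * pd i ψ x := by
  have h1 := (h.mul hΩ h.2.2 h').integral_pd i
  have i1 := ((h.dpd i).mul hΩ (h.dpd i).2.2 h').integrable.integrableOn (s := Ω)
  have i2 := (h.mul hΩ h.2.2 (contDiffOn_pd (i := i) hΩ h')).integrable.integrableOn (s := Ω)
  rw [setIntegral_congr_fun hΩ.measurableSet
    (fun x hx => pd_mul (h.diff x) (diffAt hΩ h' hx)), integral_add i1 i2] at h1
  exact eq_neg_of_add_eq_zero_left h1

/-- A Hardy type inequality near the plane `x₃ = 0`. -/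
lemma IsTest.hardy (h : IsTest Ω φ) (hΩ : IsOpen Ω) (hz : ∀ x ∈ Ω, 0 < x 2) {t : ℝ} (ht : 0 < t) :
    ∫ x in Ω ∩ {x | x 2 < t}, ‖φ x‖ ^ 2 ≤ 12 * t ^ 2 * ∫ x in Ω, ‖pd 2 φ x‖ ^ 2 := by
  set m : E3 → ℝ := fun x => Real.exp (-(x 2) / t) with hm
  have mc : ContDiff ℝ ∞ fun x => (m x : ℂ) := by
    refine Complex.ofRealCLM.contDiff.comp (Real.contDiff_exp.comp ?_)
    exact (EuclideanSpace.proj (𝕜 := ℝ) (2 : Fin 3)).contDiff.neg.div_const t
  have md : ∀ x, pd 2 (fun x => (m x : ℂ)) x = -(m x : ℂ) / t := by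
    intro x
    have h1 : HasDerivAt (fun s : ℝ => ((Real.exp (-s / t) : ℝ) : ℂ))
        ((Real.exp (-(x 2) / t) * (-1 / t) : ℝ) : ℂ) (x 2) :=
      (((hasDerivAt_neg (x 2)).div_const t).exp).ofReal_comp
    rw [pd_comp_real (b := fun y : E3 => y 2)
      (EuclideanSpace.proj (𝕜 := ℝ) (2 : Fin 3)).differentiableAt h1, fderiv_coord]
    simp only [hm, if_true]
    push_cast; ring
  have tq : IsTest Ω fun x => φ x * conj (φ x) := h.mul isOpen_univ (subset_univ _) h.cj.1.contDiffOn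
  have key := tq.ibp hΩ mc.contDiffOn 2
  have cm : Continuous m := by rw [hm]; fun_prop
  have cs : ∀ {χ : E3 → ℂ}, IsTest Ω χ → HasCompactSupport (fun x => ‖χ x‖ ^ 2) := fun hχ =>
    hχ.2.1.comp_left (g := fun z : ℂ => ‖z‖ ^ 2) (by simp)
  have cc : ∀ {χ : E3 → ℂ}, IsTest Ω χ → Continuous (fun x => ‖χ x‖ ^ 2) := fun hχ =>
    hχ.1.continuous.norm.pow 2
  have iq : ∀ {χ : E3 → ℂ}, IsTest Ω χ → Integrable (fun x => ‖χ x‖ ^ 2) := fun hχ =>
    (cc hχ).integrable_of_hasCompactSupport (cs hχ)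
  have iq' : ∀ {χ : E3 → ℂ}, IsTest Ω χ → Integrable (fun x => ‖χ x‖ ^ 2 * m x) := fun hχ =>
    ((cc hχ).mul cm).integrable_of_hasCompactSupport (cs hχ).mul_right
  have e1 : ∫ x in Ω, φ x * conj (φ x) * pd 2 (fun x => (m x : ℂ)) x
      = -((∫ x in Ω, ‖φ x‖ ^ 2 * m x : ℝ) : ℂ) / t := by
    rw [← integral_complex_ofReal, ← integral_neg, ← integral_div]
    refine integral_congr_ae (Eventually.of_forall fun x => ?_)
    simp only [md, Complex.mul_conj']
    push_cast; ring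
  have mp : ∀ x, 0 < m x := fun x => Real.exp_pos _
  have e2 : ‖∫ x in Ω, pd 2 (fun x => φ x * conj (φ x)) x * m x‖
      ≤ ∫ x in Ω, (‖φ x‖ ^ 2 * m x / (2 * t) + 2 * t * ‖pd 2 φ x‖ ^ 2) := by
    refine norm_integral_le_of_norm_le (((iq' h).div_const _).add
      ((iq (h.dpd 2)).const_mul _)).integrableOn ?_
    refine (ae_restrict_mem hΩ.measurableSet).mono fun x hx => ?_
    rw [pd_mul (h.diff x) (h.cj.diff x), pd_conj (h.diff x), norm_mul, Complex.norm_real,
      Real.norm_of_nonneg (mp x).le]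
    have m1 : m x ≤ 1 := Real.exp_le_one_iff.2 (div_nonpos_of_nonpos_of_nonneg
      (by linarith [hz x hx]) ht.le)
    have n1 : ‖pd 2 φ x * conj (φ x) + φ x * conj (pd 2 φ x)‖ ≤ 2 * ‖φ x‖ * ‖pd 2 φ x‖ := by
      refine (norm_add_le _ _).trans ?_
      rw [norm_mul, norm_mul, Complex.norm_conj, Complex.norm_conj]; linarith
    have n2 : 2 * ‖φ x‖ * ‖pd 2 φ x‖ ≤ ‖φ x‖ ^ 2 / (2 * t) + 2 * t * ‖pd 2 φ x‖ ^ 2 := by
      rw [div_add' _ _ _ (by positivity), le_div_iff₀ (by positivity)]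
      nlinarith [sq_nonneg (‖φ x‖ - 2 * t * ‖pd 2 φ x‖)]
    calc _ ≤ (‖φ x‖ ^ 2 / (2 * t) + 2 * t * ‖pd 2 φ x‖ ^ 2) * m x :=
          mul_le_mul_of_nonneg_right (n1.trans n2) (mp x).le
      _ = ‖φ x‖ ^ 2 * m x / (2 * t) + 2 * t * ‖pd 2 φ x‖ ^ 2 * m x := by ring
      _ ≤ _ := add_le_add le_rfl (mul_le_of_le_one_right (by positivity) m1)
  rw [key, e1, integral_add ((iq' h).div_const _).integrableOn
    ((iq (h.dpd 2)).const_mul _).integrableOn, integral_div, integral_const_mul] at e2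
  have e3 : ∫ x in Ω ∩ {x | x 2 < t}, ‖φ x‖ ^ 2 ≤ 3 * ∫ x in Ω, ‖φ x‖ ^ 2 * m x := by
    have ms : MeasurableSet (Ω ∩ {x : E3 | x 2 < t}) :=
      (hΩ.inter (isOpen_lt (by fun_prop) continuous_const)).measurableSet
    calc _ ≤ ∫ x in Ω ∩ {x | x 2 < t}, 3 * (‖φ x‖ ^ 2 * m x) := by
          refine setIntegral_mono_on (iq h).integrableOn ((iq' h).const_mul _).integrableOn ms
            fun x hx => ?_
          have h1 : -1 ≤ -(x 2) / t := by
            rw [le_div_iff₀ ht]; have := hx.2; simp only [mem_ofPred_eq] at this; linarith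
          have h2 : Real.exp (-1) ≤ m x := Real.exp_le_exp.2 h1
          have h3 : 1 / 3 ≤ Real.exp (-1) := by
            rw [Real.exp_neg, one_div]
            exact inv_anti₀ (Real.exp_pos _) (le_trans Real.exp_one_lt_d9.le (by norm_num))
          nlinarith [sq_nonneg ‖φ x‖]
      _ ≤ ∫ x in Ω, 3 * (‖φ x‖ ^ 2 * m x) :=
          setIntegral_mono_set ((iq' h).const_mul _).integrableOn
            (Eventually.of_forall fun x => by have := mp x; positivity)
            (LE.le.eventuallyLE inter_subset_left)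
      _ = _ := integral_const_mul _ _
  have i0 : 0 ≤ ∫ x in Ω, ‖φ x‖ ^ 2 * m x :=
    integral_nonneg fun x => by have := mp x; positivity
  generalize ∫ x in Ω, ‖φ x‖ ^ 2 * m x = J at *
  rw [neg_div, neg_neg, norm_div, Complex.norm_real, Complex.norm_real, Real.norm_of_nonneg i0,
    Real.norm_of_nonneg ht.le, div_add' _ _ _ (by positivity),
    div_le_div_iff₀ ht (by positivity)] at e2
  have : J ≤ 4 * t ^ 2 * ∫ x in Ω, ‖pd 2 φ x‖ ^ 2 := by
    refine le_of_mul_le_mul_right ?_ ht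
    nlinarith
  linarith

end Pool.Agent.Lib.MP_322279_an
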