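import Pool.Agent.Lib.MP_322279_an.Cone
import Pool.Agent.Lib.MP_322279_an.CapProfile

/-!
Geometry of the circular cone and estimates for truncated homogeneous solutions.
-/

namespace Pool.Agent.Lib.MP_322279_an.Cap

open MeasureTheory Set Filter Topology Metric
open scoped ContDiff

variable {a ν l : ℂ} {δ s s₀ t L : ℝ} {U : Set ℂ} {h : ℂ → ℂ} {x : E3}

/-- The circular cone described by polynomial inequalities. -/
def Oc (δ : ℝ) : Set E3 := {x | ‖x‖ < 1 ∧ 0 < x 2 ∧ x 0 ^ 2 + x 1 ^ 2 < δ * x 2 ^ 2}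

/-- A closed slab of the cone. -/
def Kc (δ s t : ℝ) : Set E3 := {x | s ≤ x 2 ∧ x 2 ≤ t ∧ x 0 ^ 2 + x 1 ^ 2 ≤ δ * x 2 ^ 2}

lemma cap_eq {k : ℝ} (k0 : 0 < k) :
    {x : E3 | ‖x‖ < 1 ∧ k * ‖x‖ < x 2} = Oc ((1 - k ^ 2) / k ^ 2) := by
  ext x
  have n := norm_sq3 x
  have n0 := norm_nonneg x
  have k2 : 0 < k ^ 2 := by positivity
  simp only [Oc, mem_ofPred_eq, div_mul_eq_mul_div, lt_div_iff₀ k2]
  refine and_congr_right fun _ => ⟨fun h1 => ?_, fun ⟨z, h1⟩ => ?_⟩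
  · have z : 0 < x 2 := (mul_nonneg k0.le n0).trans_lt h1
    have k1 := pow_lt_pow_left₀ h1 (by positivity) two_ne_zero
    rw [mul_pow, n] at k1
    exact ⟨z, by linarith⟩
  · exact lt_of_pow_lt_pow_left₀ 2 z.le (by rw [mul_pow, n]; linarith)

lemma isOpen_Oc : IsOpen (Oc δ) := by
  unfold Oc
  refine IsOpen.and ?_ (IsOpen.and ?_ ?_) <;> exact isOpen_lt (by fun_prop) (by fun_prop)

lemma nlz (hδ : 0 < δ) (z : 0 ≤ x 2) (h2 : x 0 ^ 2 + x 1 ^ 2 ≤ δ * x 2 ^ 2) :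
    ‖x‖ ≤ (2 + δ) * x 2 :=
  norm_le_z hδ z (by nlinarith [sq_nonneg (x 2)])

lemma zlt (hx : x ∈ Oc δ) : 0 < x 2 ∧ x 2 < 1 :=
  ⟨hx.2.1, ((le_abs_self _).trans (PiLp.norm_apply_le x 2)).trans_lt hx.1⟩

lemma isCompact_Kc (hδ : 0 < δ) (hs : 0 ≤ s) : IsCompact (Kc δ s t) := by
  refine (isCompact_closedBall (0 : E3) ((2 + δ) * t)).of_isClosed_subset ?_
    fun x hx => mem_closedBall_zero_iff.2 ?_
  · unfold Kc
    refine IsClosed.and ?_ (IsClosed.and ?_ ?_) <;> exact isClosed_le (by fun_prop) (by fun_prop)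
  exact (nlz hδ (hs.trans hx.1) hx.2.2).trans (mul_le_mul_of_nonneg_left hx.2.1 (by positivity))

instance : IsFiniteMeasure (volume.restrict (Oc δ)) :=
  isFiniteMeasure_restrict.2 ((measure_mono fun _ hx => mem_ball_zero_iff.2 hx.1).trans_lt
    (measure_ball_lt_top (x := (0 : E3)) (r := 1))).ne

lemma sgm (z : 0 < x 2) (h2 : x 0 ^ 2 + x 1 ^ 2 ≤ δ * x 2 ^ 2) : 0 ≤ sg x ∧ sg x ≤ δ :=
  ⟨by rw [sg]; positivity, (div_le_iff₀ (by positivity)).2 h2⟩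

/-- Bounds for the angular profile. -/
lemma prof_bd (hδ : 0 < δ) (hU : IsOpen U) (hm : ∀ σ : ℝ, 0 ≤ σ → σ ≤ δ → 1 + a * σ ∈ U)
    (hh : DifferentiableOn ℂ h U) (z2 : h (1 + a * δ) = 0) :
    ∃ L, 0 ≤ L ∧ ∀ σ : ℝ, 0 ≤ σ → σ ≤ δ → ‖h (1 + a * σ)‖ ≤ L * (δ - σ)
      ∧ ‖h (1 + a * σ)‖ ≤ L ∧ ‖a * σ * deriv h (1 + a * σ)‖ ≤ L := by
  have c : ContinuousOn (fun σ : ℝ => deriv h (1 + a * σ) * a) (Icc 0 δ) :=
    ((hh.deriv hU).continuousOn.comp (by fun_prop) fun σ hσ => hm σ hσ.1 hσ.2).mul continuousOn_const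
  obtain ⟨B, hB⟩ := isCompact_Icc.exists_bound_of_continuousOn c
  have m2 : δ ∈ Icc 0 δ := ⟨hδ.le, le_rfl⟩
  have B0 : 0 ≤ B := (norm_nonneg _).trans (hB δ m2)
  have d : ∀ σ ∈ Icc (0 : ℝ) δ, HasDerivWithinAt (fun σ : ℝ => h (1 + a * σ))
      (deriv h (1 + a * σ) * a) (Icc 0 δ) σ := fun σ hσ => by
    have := (hasDerivAt_of_on hU hh (hm σ hσ.1 hσ.2)).comp σ
      (((hd_id σ).const_mul a).const_add 1)
    rw [mul_one] at this
    exact this.hasDerivWithinAt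
  refine ⟨B + B * δ, by positivity, fun σ s1 s2 => ?_⟩
  have l2 := (convex_Icc _ _).norm_image_sub_le_of_norm_hasDerivWithin_le d hB m2 ⟨s1, s2⟩
  rw [z2, sub_zero, Real.norm_of_nonpos (by linarith)] at l2
  have p2 : 0 ≤ B * δ := by positivity
  have p3 : 0 ≤ δ - σ := by linarith
  refine ⟨by nlinarith [mul_nonneg p2 p3], by nlinarith [mul_nonneg B0 s1], ?_⟩
  have := hB σ ⟨s1, s2⟩
  rw [show a * σ * deriv h (1 + a * σ) = deriv h (1 + a * σ) * a * σ by ring, norm_mul,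
    Complex.norm_real, Real.norm_of_nonneg s1]
  exact (mul_le_mul this s2 s1 B0).trans (le_add_of_nonneg_left B0)

lemma Rr_bd (hν : ν.re ≤ 0) (L0 : 0 ≤ L) (hL : ∀ x ∈ Oc δ, ‖h (wf a x)‖ ≤ L
    ∧ ‖(wf a x - 1) * deriv h (wf a x)‖ ≤ L) :
    ∃ C, 0 ≤ C ∧ ∀ s, 0 < s → ∀ x ∈ Oc δ, ‖Rr l a ν h s x‖ ≤ C * s ^ ν.re / s ^ 2 := by
  obtain ⟨C, C0, hC⟩ := chi_bound
  refine ⟨‖l * a‖ * ((C + 2 * ‖ν‖ * C) * L + 4 * C * L), by positivity, fun s hs x hx => ?_⟩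
  by_cases hz : x 2 ∈ Icc s (2 * s)
  swap
  · rw [Rr_zero hs hz, norm_zero]; positivity
  have z := hx.2.1
  have n1 : ‖deriv chi (x 2 / s) / s / x 2‖ ≤ C / s ^ 2 := by
    rw [norm_div, norm_div, Complex.norm_real, Complex.norm_real, Real.norm_of_nonneg hs.le,
      Real.norm_of_nonneg z.le, sq, ← div_div]
    gcongr
    · exact (hC _).2.1
    · exact hz.1
  have n2 : ‖deriv (deriv chi) (x 2 / s) / s ^ 2‖ ≤ C / s ^ 2 := by
    rw [norm_div, norm_pow, Complex.norm_real, Real.norm_of_nonneg hs.le]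
    gcongr
    exact (hC _).2.2.2
  have n3 : ‖pw ν (x 2)‖ ≤ s ^ ν.re := by
    rw [norm_pw z]; exact Real.rpow_le_rpow_of_nonpos hs hz.1 hν
  rw [Rr, norm_mul, norm_mul]
  generalize deriv chi (x 2 / s) / s / x 2 = p at *
  generalize deriv (deriv chi) (x 2 / s) / s ^ 2 = q at *
  calc _ ≤ ‖l * a‖ * s ^ ν.re * ((C / s ^ 2 + 2 * ‖ν‖ * (C / s ^ 2)) * L + 4 * (C / s ^ 2) * L) := by
        gcongr
        refine (norm_sub_le _ _).trans (add_le_add ?_ ?_)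
        · rw [norm_mul]
          refine mul_le_mul ((norm_add_le _ _).trans (add_le_add n2 ?_)) (hL x hx).1 (norm_nonneg _)
            (by positivity)
          rw [norm_mul, norm_mul, Complex.norm_two]
          gcongr
        · rw [norm_mul, norm_mul, Complex.norm_ofNat]
          gcongr
          exact (hL x hx).2
    _ = _ := by ring

/-- The error term tested against a function bounded near the vertex tends to zero. -/
lemma Rr_lim {u : E3 → ℂ} {C r M : ℝ} (hδ : 0 < δ) (hν : -1 < ν.re) (C0 : 0 ≤ C)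
    (hC : ∀ s, 0 < s → ∀ x ∈ Oc δ, ‖Rr l a ν h s x‖ ≤ C * s ^ ν.re / s ^ 2) (hr : 0 < r)
    (hu : ∀ x ∈ Oc δ, ‖x‖ < r → ‖u x‖ ≤ M) :
    Tendsto (fun s => ∫ x in Oc δ, u x * Rr l a ν h s x) (𝓝[>] 0) (𝓝 0) := by
  set v := volume.real (ball (0 : E3) 1)
  have t1 : Tendsto (fun s : ℝ => |M| * C * ((2 + δ) * 2) ^ 3 * v * s ^ (ν.re + 1)) (𝓝[>] 0)
      (𝓝 0) := by
    have := ((Real.continuousAt_rpow_const 0 (ν.re + 1) (Or.inr (by linarith))).tendsto.mono_left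
      (nhdsWithin_le_nhds (s := Ioi 0))).const_mul (|M| * C * ((2 + δ) * 2) ^ 3 * v)
    rwa [Real.zero_rpow (by linarith), mul_zero] at this
  refine squeeze_zero_norm' ?_ t1
  filter_upwards [Ioo_mem_nhdsGT (show 0 < r / ((2 + δ) * 2) by positivity)] with s hs
  have s0 := hs.1
  have sr : (2 + δ) * 2 * s < r := by
    have := (lt_div_iff₀ (by positivity)).1 hs.2; linarith
  rw [setIntegral_eq_of_subset_of_forall_sdiff_eq_zero isOpen_Oc.measurableSet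
    (inter_subset_left (t := closedBall 0 ((2 + δ) * 2 * s))) fun x hx => ?_]
  · refine (norm_setIntegral_le_of_norm_le_const (C := |M| * (C * s ^ ν.re / s ^ 2))
      ((measure_mono inter_subset_right).trans_lt measure_closedBall_lt_top) fun x hx => ?_).trans ?_
    · rw [norm_mul]
      exact mul_le_mul ((hu x hx.1 ((mem_closedBall_zero_iff.1 hx.2).trans_lt sr)).trans
        (le_abs_self _)) (hC s s0 x hx.1) (norm_nonneg _) (abs_nonneg _)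
    · refine (mul_le_mul_of_nonneg_left (measureReal_mono inter_subset_right
        measure_closedBall_lt_top.ne) (by positivity)).trans (le_of_eq ?_)
      rw [vol_ball _ (by positivity), Real.rpow_add_one s0.ne']
      field_simp
      rfl
  · rw [Rr_zero s0 fun k => hx.2 ⟨hx.1, mem_closedBall_zero_iff.2 ?_⟩, mul_zero]
    refine (nlz hδ hx.1.2.1.le hx.1.2.2.le).trans ?_
    rw [mul_assoc]
    exact mul_le_mul_of_nonneg_left k.2 (by positivity)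

lemma cd_chs (s : ℝ) : ContDiff ℝ ∞ fun t => chi (t / s) := cd_chi.comp (contDiff_id.div_const s)

lemma Oc_sub (hm : ∀ σ : ℝ, 0 ≤ σ → σ ≤ δ → 1 + a * σ ∈ U) : Oc δ ⊆ Dm a U := fun _ hx =>
  ⟨hx.2.1, hm _ (sgm hx.2.1 hx.2.2.le).1 (sgm hx.2.1 hx.2.2.le).2⟩

lemma Rr_mem {C : ℝ} (hU : IsOpen U) (hm : ∀ σ : ℝ, 0 ≤ σ → σ ≤ δ → 1 + a * σ ∈ U)
    (hh : DifferentiableOn ℂ h U) (ho : ∀ w ∈ U, ode ν h w = 0)
    (hC : ∀ x ∈ Oc δ, ‖Rr l a ν h s x‖ ≤ C) :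
    MemLp (Rr l a ν h s) 2 (volume.restrict (Oc δ)) := by
  have c := cd_sep (a := a) hU ((cd_chs s).contDiffOn.mul (cd_pw (ν := ν))) hh
  have c' : ContinuousOn (fun x => ∑ i, dv l a i * pd i (pd i (sep a
      (fun t => chi (t / s) * pw ν t) h)) x) (Dm a U) := continuousOn_finsetSum _ fun i _ =>
    continuousOn_const.mul (contDiffOn_pd (isOpen_Dm hU) (contDiffOn_pd (isOpen_Dm hU) c)).continuousOn
  refine MemLp.of_bound (((c'.congr fun x hx => ?_).mono (Oc_sub hm)).aestronglyMeasurable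
    isOpen_Oc.measurableSet) C ((ae_restrict_mem isOpen_Oc.measurableSet).mono hC)
  rw [← op_diag, op_sep hU hh ho (hd_chis s) (hd_chis1 s) hx]; rfl

/-- Green's identity for the doubly truncated homogeneous solution. -/
lemma trunc_cap (hδ : 0 < δ) (hν : ν.re ≤ 0) (hU : IsOpen U)
    (hm : ∀ σ : ℝ, 0 ≤ σ → σ ≤ δ → 1 + a * σ ∈ U) (hh : DifferentiableOn ℂ h U)
    (ho : ∀ w ∈ U, ode ν h w = 0) (L0 : 0 ≤ L)
    (hL : ∀ σ : ℝ, 0 ≤ σ → σ ≤ δ → ‖h (1 + a * σ)‖ ≤ L * (δ - σ))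
    (hs : 0 < s) (hs' : s ≤ s₀) (h0 : (2 + δ) * (2 * s₀) < 1)
    {u f : E3 → ℂ} {g : Fin 3 → E3 → ℂ} (hu : HG (Oc δ) u g)
    (hf : MemLp f 2 (volume.restrict (Oc δ)))
    (w : ∀ φ, IsTest (Oc δ) φ →
      ∑ i, dv l a i * ∫ x in Oc δ, g i x * pd i φ x = -∫ x in Oc δ, f x * φ x) :
    ∫ x in Oc δ, (u x * Rr l a ν h s x - u x * Rr l a ν h s₀ x)
      = ∫ x in Oc δ, f x * ((chi (x 2 / s) - chi (x 2 / s₀)) * pw ν (x 2) * h (wf a x)) := by
  have s0 : 0 < s₀ := hs.trans_le hs'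
  set ψ := sep a (fun t => (chi (t / s) - chi (t / s₀)) * pw ν t) h with hψ
  have hK := isCompact_Kc (t := 2 * s₀) hδ hs.le
  have KD : Kc δ s (2 * s₀) ⊆ Dm a U := fun x hx =>
    have z := hs.trans_le hx.1
    ⟨z, hm _ (sgm z hx.2.2).1 (sgm z hx.2.2).2⟩
  have v : ∀ x : E3, x 2 < s ∨ 2 * s₀ < x 2 → ψ x = 0 := by
    rintro x (k | k)
    · simp [hψ, sep, chi_zero ((div_le_one hs).2 k.le), chi_zero ((div_le_one s0).2 (k.le.trans hs'))]
    · simp [hψ, sep, chi_one ((le_div_iff₀ hs).2 (show 2 * s ≤ x 2 by linarith)),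
        chi_one ((le_div_iff₀ s0).2 k.le)]
  have gd : Good (Oc δ) (Dm a U) (Kc δ s (2 * s₀)) ψ :=
    ⟨cd_sep hU (((cd_chs s).sub (cd_chs s₀)).contDiffOn.mul cd_pw) hh, fun x hx hx' => v x <| by
      by_contra k
      push Not at k
      exact hx' ⟨k.1, k.2, hx.2.2.le⟩⟩
  have hg := gd.hg isOpen_Oc (isOpen_Dm hU) (Oc_sub hm) hK KD
    (b := fun x => δ * x 2 ^ 2 - (x 0 ^ 2 + x 1 ^ 2)) (M := 2 * s ^ ν.re * L / s ^ 2)
    ((contDiff_const.mul ((cd_coord 2).pow 2)).sub (((cd_coord 0).pow 2).add ((cd_coord 1).pow 2)))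
    (fun x hx => sub_pos.2 hx.2.2)
    (fun x hx hb => by
      have z := hs.trans_le hx.1
      exact ⟨((nlz hδ z.le hx.2.2).trans
        (mul_le_mul_of_nonneg_left hx.2.1 (by positivity))).trans_lt h0, z, sub_pos.1 hb⟩)
    (fun x hx => by
      by_cases k : x 2 < s ∨ 2 * s₀ < x 2
      · exact Or.inl (v x k)
      push Not at k
      have k2 := not_le.1 fun k2 => hx ⟨k.1, k.2, k2⟩
      exact Or.inr (by linarith))
    (fun x hx => by
      have bp := sub_pos.2 hx.2.2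
      have z := hx.2.1
      by_cases k : x 2 < s
      · rw [v x (Or.inl k), norm_zero]; positivity
      push Not at k
      obtain ⟨C, -, hC⟩ := chi_bound
      have m := sgm z hx.2.2.le
      have e : δ - sg x = (δ * x 2 ^ 2 - (x 0 ^ 2 + x 1 ^ 2)) / x 2 ^ 2 := by
        rw [sg]; field_simp
      have n := hL _ m.1 m.2
      rw [e] at n
      simp only [hψ, sep, norm_mul]
      generalize δ * x 2 ^ 2 - (x 0 ^ 2 + x 1 ^ 2) = b at *
      calc _ ≤ 2 * s ^ ν.re * (L * (b / s ^ 2)) := by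
            gcongr
            · exact (norm_sub_le _ _).trans (by linarith [(hC (x 2 / s)).1, (hC (x 2 / s₀)).1])
            · rw [norm_pw z]; exact Real.rpow_le_rpow_of_nonpos hs k hν
            · exact n.trans (by gcongr)
        _ = _ := by ring)
  refine Eq.trans (setIntegral_congr_fun isOpen_Oc.measurableSet fun x hx => ?_)
    (gd.dual isOpen_Oc (isOpen_Dm hU) (Oc_sub hm) hK KD hg hu hf w)
  rw [op_sep hU hh ho (fun t => (hd_chis s t).fun_sub (hd_chis s₀ t))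
    (fun t => (hd_chis1 s t).fun_sub (hd_chis1 s₀ t)) (Oc_sub hm hx), Rr, Rr]
  ring

/-- A ball in the cone on which the profile is bounded from below. -/
lemma ball_cap (hδ : 0 < δ) (hU : IsOpen U) (hm : ∀ σ : ℝ, 0 ≤ σ → σ ≤ δ → 1 + a * σ ∈ U)
    (hh : DifferentiableOn ℂ h U) (z1 : h 1 ≠ 0) :
    ∃ (p : E3) (r c : ℝ), 0 < r ∧ 0 < c ∧ ∀ t, 0 < t → t ≤ 1 → ∀ x ∈ closedBall (t • p) (t * r),
      x ∈ Oc δ ∧ x 2 < t ∧ c ≤ ‖h (wf a x)‖ := by
  set p : E3 := !₂[0, 0, 1 / 2] with hp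
  have p0 : p 0 ^ 2 + p 1 ^ 2 = 0 := by simp [hp]
  have p2 : p 2 = 1 / 2 := rfl
  have pm : p ∈ Oc δ := by
    refine ⟨lt_of_pow_lt_pow_left₀ 2 zero_le_one ?_, by rw [p2]; norm_num, ?_⟩
    · rw [norm_sq3, p0, p2]; norm_num
    · rw [p0, p2]; positivity
  have pw : wf a p = 1 := by simp [wf, sg, p0]
  have c : ContinuousAt (fun x => ‖h (wf a x)‖) p :=
    ((hh.continuousOn.comp (cd_wf.continuousOn.mono fun _ hx => hx.1) fun _ hx => hx.2).continuousAt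
      ((isOpen_Dm hU).mem_nhds (Oc_sub hm pm))).norm
  have n0 : 0 < ‖h 1‖ := norm_pos_iff.2 z1
  obtain ⟨r, r0, hr⟩ := nhds_basis_closedBall.eventually_iff.1
    ((c.eventually (lt_mem_nhds (show ‖h 1‖ / 2 < ‖h (wf a p)‖ by rw [pw]; linarith))).and
      (isOpen_Oc.mem_nhds pm))
  refine ⟨p, r, _, r0, half_pos n0, fun t t0 t1 x hx => ?_⟩
  obtain ⟨y, rfl⟩ : ∃ y : E3, x = t • y := ⟨t⁻¹ • x, by rw [smul_inv_smul₀ t0.ne']⟩
  rw [mem_closedBall, dist_smul₀, Real.norm_of_nonneg t0.le] at hx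
  obtain ⟨y1, y2⟩ := hr (le_of_mul_le_mul_left hx t0)
  have e : wf a (t • y) = wf a y := by
    have := y2.2.1
    simp only [wf, sg, PiLp.smul_apply, smul_eq_mul]
    congr 3
    field_simp
  have t2 : 0 < t ^ 2 := by positivity
  refine ⟨⟨?_, mul_pos t0 y2.2.1, ?_⟩, mul_lt_of_lt_one_right t0 (zlt y2).2, e ▸ y1.le⟩
  · rw [norm_smul, Real.norm_of_nonneg t0.le]
    exact mul_lt_one_of_nonneg_of_lt_one_right t1 (norm_nonneg _) y2.1
  · simp only [PiLp.smul_apply, smul_eq_mul, mul_pow]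
    nlinarith [mul_lt_mul_of_pos_left y2.2.2 t2]

end Pool.Agent.Lib.MP_322279_an.Cap
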