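import Pool.Agent.Lib.MP_322279_an.CapCone

/-!
The duality argument in the circular cone.
-/

namespace Pool.Agent.Lib.MP_322279_an.Cap

open MeasureTheory Set Filter Topology Metric
open scoped ContDiff

theorem main_cap {δ : ℝ} (hδ : 0 < δ) : ∃ (d : Fin 3 → ℂ) (c : ℝ), 0 < c ∧ (∀ i, c ≤ (d i).re) ∧
    ∃ f, IsTest (Oc δ) f ∧ ∀ u, IsSolution (diagM d) (Oc δ) f u →
      ∀ r, 0 < r → ∀ C, ∃ x ∈ Oc δ, ‖x‖ < r ∧ C < ‖u x‖ := by
  obtain ⟨ν, a, U, h, n1, n2, ha, hU, hm, hh, ho, z2, z1⟩ := exists_cap_profile hδ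
  set η : ℝ := a.im / (1 + |a.re|) with hη
  have η0 : 0 < η := by positivity
  have η1 : 0 < η * a.re + a.im := by
    have : η * (1 + |a.re|) = a.im := div_mul_cancel₀ _ (by positivity)
    nlinarith [mul_le_mul_of_nonneg_left (neg_abs_le a.re) η0.le]
  set l : ℂ := η - Complex.I with hl
  have hc := lt_min η0 η1
  have hd : ∀ i, min η (η * a.re + a.im) ≤ (dv l a i).re := by
    intro i
    fin_cases i <;> simp [dv, hl]
  refine ⟨dv l a, _, hc, hd, ?_⟩
  by_contra H
  push Not at H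
  have hν : ν.re ≤ 0 := by linarith
  have ms := (isOpen_Oc (δ := δ)).measurableSet
  obtain ⟨L, L0, hL⟩ := prof_bd hδ hU hm hh z2
  obtain ⟨C, C0, hC⟩ := Rr_bd (l := l) (a := a) (h := h) (δ := δ) hν L0 fun x hx => by
    have m := sgm hx.2.1 hx.2.2.le
    rw [wf, add_sub_cancel_left]
    exact (hL _ m.1 m.2).2
  have mR : ∀ s, 0 < s → MemLp (Rr l a ν h s) 2 (volume.restrict (Oc δ)) := fun s hs =>
    Rr_mem hU hm hh ho (hC s hs)
  set s₀ : ℝ := 1 / (4 * (2 + δ)) with hs₀
  have s0 : 0 < s₀ := by positivity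
  have s1 : (2 + δ) * (2 * s₀) < 1 := by
    rw [hs₀]; field_simp; norm_num
  obtain ⟨W, G, hW, wW⟩ := exists_weak isOpen_Oc (fun x hx => zlt hx) hc hd (mR s₀ s0)
  set V := sep a (fun t => (1 - chi (t / s₀)) * pw ν t) h with hV
  have cV : ContDiffOn ℝ ∞ V (Oc δ) :=
    (cd_sep hU ((contDiff_const.sub (cd_chs s₀)).contDiffOn.mul cd_pw) hh).mono (Oc_sub hm)
  have key : ∀ f, IsTest (Oc δ) f → ∫ x in Oc δ, f x * (W x + V x) = 0 := by
    intro f hf
    obtain ⟨u, ⟨hu, su⟩, r, hr, M, hM⟩ := H f hf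
    obtain ⟨g, hu⟩ := inH10_iff.1 hu
    have w : ∀ φ, IsTest (Oc δ) φ →
        ∑ i, dv l a i * ∫ x in Oc δ, g i x * pd i φ x = -∫ x in Oc δ, f x * φ x := fun φ hφ => by
      rw [hu.green_test isOpen_Oc hφ, su φ hφ]
    have e1 := hW.extend hu.2.1 (hf.memLp _) w
    have e2 := hu.extend hW.2.1 (mR s₀ s0) wW
    have e3 : ∫ x in Oc δ, f x * W x = ∫ x in Oc δ, u x * Rr l a ν h s₀ x := by
      refine neg_injective (e1.symm.trans (Eq.trans ?_ (e2.trans ?_))) <;> simp only [mul_comm]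
    obtain ⟨m, m0, hm'⟩ := hf.2.1.isCompact.exists_forall_le' (f := fun x : E3 => x 2) (a := 0)
      (by fun_prop) fun x hx => (hf.2.2 hx).2.1
    have lim := Rr_lim hδ n1 C0 hC hr hM
    have e4 : (0 : ℂ) = (∫ x in Oc δ, u x * Rr l a ν h s₀ x) + ∫ x in Oc δ, f x * V x := by
      refine tendsto_nhds_unique lim (tendsto_const_nhds.congr' ?_)
      filter_upwards [Ioo_mem_nhdsGT (lt_min s0 (half_pos m0))] with s hs
      have k := trunc_cap hδ hν hU hm hh ho L0 (fun σ a b => (hL σ a b).1) hs.1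
        (hs.2.le.trans (min_le_left _ _)) s1 hu (hf.memLp _) w
      have iu : ∀ s, 0 < s → Integrable (fun x => u x * Rr l a ν h s x) (volume.restrict (Oc δ)) :=
        fun s hs => hu.1.integrable_mul (mR s hs)
      rw [integral_sub (iu s hs.1) (iu s₀ s0), sub_eq_iff_eq_add'] at k
      rw [k]
      congr 1
      refine integral_congr_ae (Eventually.of_forall fun x => ?_)
      by_cases hx : x ∈ tsupport f
      · have : 2 ≤ x 2 / s := by
          rw [le_div_iff₀ hs.1]
          linarith [hm' x hx, hs.2.trans_le (min_le_right _ _)]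
        simp only [chi_one this, hV, sep]
      · simp only [image_eq_zero_of_notMem_tsupport hx, zero_mul]
    simp only [mul_add]
    have iw : Integrable (fun x => f x * W x) (volume.restrict (Oc δ)) :=
      (hf.memLp _).integrable_mul hW.1
    rw [integral_add iw (hf.mul isOpen_Oc hf.2.2 cV).integrable.integrableOn, e3, ← e4]
  have ae : ∀ᵐ x ∂volume.restrict (Oc δ), W x + V x = 0 := by
    rw [ae_restrict_iff' ms]
    refine isOpen_Oc.ae_eq_zero_of_integral_contDiff_smul_eq_zero (f := fun x => W x + V x)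
      ((IntegrableOn.locallyIntegrableOn (hW.1.integrable one_le_two)).add
        (cV.continuousOn.locallyIntegrableOn ms)) fun g g1 g2 g3 => ?_
    have t : IsTest (Oc δ) fun x => (g x : ℂ) := ⟨Complex.ofRealCLM.contDiff.comp g1,
      g2.comp_left (g := fun z : ℝ => (z : ℂ)) (by simp), (closure_mono
        (Function.support_comp_subset (g := fun z : ℝ => (z : ℂ)) (by simp) g)).trans g3⟩
    rw [← key _ t, setIntegral_eq_integral_of_forall_compl_eq_zero fun x hx => by
      rw [image_eq_zero_of_notMem_tsupport fun k => hx (g3 k)]; simp]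
    simp only [Complex.real_smul]
  obtain ⟨p, r, c, r0, c0, hb⟩ := ball_cap hδ hU hm hh z1
  set v := volume.real (ball (0 : E3) 1)
  have v0 : 0 < v := ENNReal.toReal_pos (measure_ball_pos _ _ one_pos).ne' measure_ball_lt_top.ne
  have iW : IntegrableOn (fun x => ‖W x‖ ^ 2) (Oc δ) :=
    (memLp_two_iff_integrable_sq_norm hW.1.1).1 hW.1
  have big := ((tendsto_rpow_neg_nhdsGT_zero (show 2 * ν.re + 1 < 0 by linarith)).atTop_mul_const
    (show 0 < c ^ 2 * r ^ 3 * v by positivity)).eventually_gt_atTop (12 * ∫ x in Oc δ, ‖G 2 x‖ ^ 2)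
  obtain ⟨t, t1, t0, t2⟩ := (big.and (Ioo_mem_nhdsGT (lt_min s0 one_pos))).exists
  have hb' := hb t t0 (t2.le.trans (min_le_right _ _))
  have sub : closedBall (t • p) (t * r) ⊆ Oc δ ∩ {x | x 2 < t} := fun x hx =>
    ⟨(hb' x hx).1, (hb' x hx).2.1⟩
  have i1 := hW.hardy isOpen_Oc (fun x hx => hx.2.1) t0
  have i2 := setIntegral_mono_set (iW.mono_set inter_subset_left)
    (Eventually.of_forall fun x => sq_nonneg _) sub.eventuallyLE
  have i3 : ∫ _ in closedBall (t • p) (t * r), (t ^ ν.re * c) ^ 2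
      ≤ ∫ x in closedBall (t • p) (t * r), ‖W x‖ ^ 2 := by
    refine integral_mono_ae (integrableOn_const measure_closedBall_lt_top.ne)
      (iW.mono_set (sub.trans inter_subset_left)) ?_
    filter_upwards [ae_restrict_of_ae_restrict_of_subset (sub.trans inter_subset_left) ae,
      ae_restrict_mem measurableSet_closedBall] with x h1 h2
    obtain ⟨b1, b2, b3⟩ := hb' x h2
    rw [eq_neg_of_add_eq_zero_left h1, norm_neg, hV, sep,
      chi_zero ((div_le_one s0).2 (b2.le.trans (t2.le.trans (min_le_left _ _)))), sub_zero, one_mul,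
      norm_mul, norm_pw b1.2.1]
    exact pow_le_pow_left₀ (by positivity) (mul_le_mul (Real.rpow_le_rpow_of_nonpos b1.2.1 b2.le hν)
      b3 c0.le (Real.rpow_nonneg b1.2.1.le _)) 2
  rw [setIntegral_const, vol_ball _ (by positivity), smul_eq_mul] at i3
  have e : (t * r) ^ 3 * v * (t ^ ν.re * c) ^ 2 = t ^ 2 * (t ^ (2 * ν.re + 1) * (c ^ 2 * r ^ 3 * v)) := by
    rw [Real.rpow_add_one t0.ne', mul_comm 2, Real.rpow_mul t0.le, Real.rpow_two]; ring
  have := mul_lt_mul_of_pos_left t1 (show 0 < t ^ 2 by positivity)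
  linarith

end Pool.Agent.Lib.MP_322279_an.Cap
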