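import Pool.Agent.Lib.MP_322279_an.Series

/-!
An angular profile that vanishes at both ends of a segment close to the singular point.
-/

namespace Pool.Agent.Lib.MP_322279_an

open Set Metric Filter Topology Complex

lemma deriv_differentiableOn {G : ℂ → ℂ} {U : Set ℂ} (hU : IsOpen U) (hG : DifferentiableOn ℂ G U) :
    DifferentiableOn ℂ (deriv G) U := hG.deriv hU

lemma hasDerivAt_of_on {G : ℂ → ℂ} {U : Set ℂ} (hU : IsOpen U) (hG : DifferentiableOn ℂ G U)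
    {w : ℂ} (hw : w ∈ U) : HasDerivAt G (deriv G w) w :=
  (hG.differentiableAt (hU.mem_nhds hw)).hasDerivAt

lemma hasDerivAt_cpow' {κ w : ℂ} (hw : w ∈ slitPlane) :
    HasDerivAt (fun y : ℂ => y ^ κ) (κ * w ^ κ / w) w := by
  have h := (hasDerivAt_id w).cpow_const (c := κ) hw
  have h0 := slitPlane_ne_zero hw
  simp only [id] at h
  rw [Complex.cpow_sub _ _ h0, Complex.cpow_one] at h
  convert h using 1
  ring

/-- The combination of the two Frobenius solutions solves the equation. -/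
lemma comb_sol {κ C₁ C₂ : ℂ} {F₁ F₂ : ℂ → ℂ} {U : Set ℂ} (hU : IsOpen U) (hs : U ⊆ slitPlane)
    (h₁ : DifferentiableOn ℂ F₁ U) (h₂ : DifferentiableOn ℂ F₂ U)
    (o₁ : ∀ w ∈ U, ode (κ - 1 / 2) F₁ w = 0) (o₂ : ∀ w ∈ U, ode (-κ - 1 / 2) F₂ w = 0) :
    DifferentiableOn ℂ (fun w => C₁ * F₁ w - C₂ * (w ^ κ * F₂ w)) U ∧
    (∀ w ∈ U, deriv (fun w => C₁ * F₁ w - C₂ * (w ^ κ * F₂ w)) w
      = C₁ * deriv F₁ w - C₂ * (w ^ κ * (κ / w * F₂ w + deriv F₂ w))) ∧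
    ∀ w ∈ U, ode (κ - 1 / 2) (fun w => C₁ * F₁ w - C₂ * (w ^ κ * F₂ w)) w = 0 := by
  have d1 : ∀ w ∈ U, HasDerivAt (fun w => C₁ * F₁ w - C₂ * (w ^ κ * F₂ w))
      (C₁ * deriv F₁ w - C₂ * (w ^ κ * (κ / w * F₂ w + deriv F₂ w))) w := by
    intro w hw
    have := ((hasDerivAt_of_on hU h₁ hw).const_mul C₁).sub
      (((hasDerivAt_cpow' (κ := κ) (hs hw)).mul (hasDerivAt_of_on hU h₂ hw)).const_mul C₂)
    exact this.congr_deriv (by ring)
  refine ⟨fun w hw => (d1 w hw).differentiableAt.differentiableWithinAt,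
    fun w hw => (d1 w hw).deriv, fun w hw => ?_⟩
  have h0 := slitPlane_ne_zero (hs hw)
  have e1 : deriv (fun w => C₁ * F₁ w - C₂ * (w ^ κ * F₂ w)) =ᶠ[𝓝 w]
      fun w => C₁ * deriv F₁ w - C₂ * (w ^ κ * (κ / w * F₂ w + deriv F₂ w)) := by
    filter_upwards [hU.mem_nhds hw] with y hy using (d1 y hy).deriv
  have q : HasDerivAt (fun y : ℂ => κ / y) (-κ / w ^ 2) w := by
    have := (hasDerivAt_inv h0).const_mul κ
    exact HasDerivAt.congr_deriv (f := fun y : ℂ => κ / y) (by simpa only [div_eq_mul_inv] using this)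
      (by field_simp)
  have d2 := ((hasDerivAt_of_on hU (h₁.deriv hU) hw).const_mul C₁).sub
      (((hasDerivAt_cpow' (κ := κ) (hs hw)).mul ((q.mul (hasDerivAt_of_on hU h₂ hw)).add
        (hasDerivAt_of_on hU (h₂.deriv hU) hw))).const_mul C₂)
  have d2' : deriv (fun w => C₁ * deriv F₁ w - C₂ * (w ^ κ * (κ / w * F₂ w + deriv F₂ w))) w = _ :=
    d2.deriv
  have a₁ := o₁ w hw
  have a₂ := o₂ w hw
  rw [ode] at a₁ a₂ ⊢
  rw [e1.deriv_eq, d2', (d1 w hw).deriv]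
  simp only [Pi.add_apply, Pi.mul_apply]
  have i1 : w * w⁻¹ = 1 := mul_inv_cancel₀ h0
  simp only [div_eq_mul_inv, ← inv_pow] at a₁ a₂ ⊢
  generalize w⁻¹ = v at i1
  linear_combination C₁ * a₁ - C₂ * w ^ κ * a₂
    - C₂ * w ^ κ * (8 * (w - 1) * κ * deriv F₂ w
      + F₂ w * (4 * κ * (κ - 1) * (w - 1) * v + 4 * κ)) * i1

/-- The exponent. -/
noncomputable def kap : ℂ := -(4 + 16 * I) / 17

/-- The base point of the perturbation. -/
noncomputable def pz : ℂ := 1 / (1 - Real.exp (2 * Real.pi) * I)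

lemma pz_den : (1 - Real.exp (2 * Real.pi) * I : ℂ) ≠ 0 := by
  intro h
  have := congrArg Complex.re h
  simp only [sub_re, one_re, mul_re, ofReal_re, I_re, mul_zero, ofReal_im, I_im, mul_one, sub_self,
    sub_zero, zero_re, one_ne_zero] at this

lemma pz_re : 0 < pz.re := by
  rw [pz, one_div, Complex.inv_re]
  refine div_pos ?_ (Complex.normSq_pos.2 pz_den)
  simp only [sub_re, one_re, mul_re, ofReal_re, I_re, mul_zero, ofReal_im, I_im, mul_one, sub_self,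
    sub_zero, zero_lt_one]

lemma pz_im : 0 < pz.im := by
  rw [pz, one_div, Complex.inv_im]
  refine div_pos ?_ (Complex.normSq_pos.2 pz_den)
  simp only [sub_im, one_im, mul_im, ofReal_re, I_im, mul_one, ofReal_im, I_re, mul_zero, add_zero,
    zero_sub, neg_neg]
  exact Real.exp_pos _

lemma pz_ne : pz ≠ 0 := fun h => by simpa [h] using pz_re

lemma pz_cpow : (pz - 1) ^ kap = pz ^ kap := by
  have h1 : pz - 1 = cexp (log pz + (2 * Real.pi + Real.pi / 2 * I)) := by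
    rw [Complex.exp_add, Complex.exp_log pz_ne, Complex.exp_add, Complex.exp_pi_div_two_mul_I]
    have : cexp (2 * Real.pi) = (Real.exp (2 * Real.pi) : ℂ) := by push_cast; rfl
    rw [this, pz]
    have := pz_den
    field_simp
    ring
  have a1 : 0 ≤ arg pz := Complex.arg_nonneg_iff.2 pz_im.le
  have a2 : arg pz < Real.pi / 2 := Complex.arg_lt_pi_div_two_iff.2 (Or.inl pz_re)
  have h2 : log (pz - 1) = log pz + (2 * Real.pi + Real.pi / 2 * I) := by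
    rw [h1, Complex.log_exp]
    · simp only [add_im, log_im, mul_im, re_ofNat, ofReal_im, mul_zero, im_ofNat, ofReal_re,
        zero_mul, add_zero, div_ofNat_re, I_im, mul_one, div_ofNat_im, zero_div, I_re, zero_add]
      linarith [Real.pi_pos]
    · simp only [add_im, log_im, mul_im, re_ofNat, ofReal_im, mul_zero, im_ofNat, ofReal_re,
        zero_mul, add_zero, div_ofNat_re, I_im, mul_one, div_ofNat_im, zero_div, I_re, zero_add]
      linarith [Real.pi_pos]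
  have h3 : pz - 1 ≠ 0 := by rw [h1]; exact Complex.exp_ne_zero _
  rw [Complex.cpow_def_of_ne_zero h3, Complex.cpow_def_of_ne_zero pz_ne, h2, add_mul,
    Complex.exp_add]
  have : ((2 * Real.pi + Real.pi / 2 * I) * kap : ℂ) = -(2 * Real.pi * I) := by
    rw [kap]
    linear_combination (-(8 / 17 : ℂ) * Real.pi) * Complex.I_mul_I
  rw [this, Complex.exp_neg, Complex.exp_two_pi_mul_I]
  simp

lemma kap_ne : kap ≠ 0 := by
  intro h
  have := congrArg Complex.re h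
  simp [kap] at this

lemma cpow_real_mul {δ : ℝ} (hδ : 0 < δ) {p : ℂ} (hp : p ≠ 0) (κ : ℂ) :
    ((δ : ℂ) * p) ^ κ = (δ : ℂ) ^ κ * p ^ κ := by
  have h0 : (δ : ℂ) ≠ 0 := by exact_mod_cast hδ.ne'
  rw [Complex.cpow_def_of_ne_zero (mul_ne_zero h0 hp), Complex.cpow_def_of_ne_zero h0,
    Complex.cpow_def_of_ne_zero hp, Complex.log_ofReal_mul hδ hp, ← Complex.exp_add,
    Complex.ofReal_log hδ.le, add_mul]

lemma slit_of_im {w : ℂ} (h : 0 < w.im) : w ∈ slitPlane := Or.inr h.ne'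

/-- A zero of a perturbed equation. -/
lemma exists_zero {Φ : ℂ × ℂ → ℂ} {p₀ β : ℂ} (hΦ : AnalyticAt ℂ Φ (0, p₀)) (h0 : Φ (0, p₀) = 0)
    (hd : HasDerivAt (fun p => Φ (0, p)) β p₀) (hβ : β ≠ 0) {N : Set (ℂ × ℂ)}
    (hN : N ∈ 𝓝 ((0 : ℂ), p₀)) : ∃ δ : ℝ, 0 < δ ∧ ∃ p, ((δ : ℂ), p) ∈ N ∧ Φ (δ, p) = 0 := by
  have s1 := hΦ.hasStrictFDerivAt
  set f' := fderiv ℂ Φ (0, p₀) with hf'
  have e : f' (0, 1) = β := by
    have c1 : HasDerivAt (fun p : ℂ => ((0 : ℂ), p)) (0, 1) p₀ :=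
      (hasDerivAt_const p₀ (0 : ℂ)).prodMk (hasDerivAt_id p₀)
    exact (s1.hasFDerivAt.comp_hasDerivAt p₀ c1).unique hd
  have s2 : HasStrictFDerivAt (fun q : ℂ × ℂ => (q.1, Φ q))
      ((ContinuousLinearMap.fst ℂ ℂ ℂ).prod f') (0, p₀) :=
    hasStrictFDerivAt_fst.prodMk s1
  have s3 := s2.map_nhds_eq_of_surj (by
    rw [LinearMap.range_eq_top]
    rintro ⟨x, y⟩
    refine ⟨(x, (y - f' (x, 0)) / β), ?_⟩
    have : ((x, (y - f' (x, 0)) / β) : ℂ × ℂ) = (x, 0) + ((y - f' (x, 0)) / β) • (0, 1) := by simp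
    refine Prod.ext rfl ?_
    change f' (x, (y - f' (x, 0)) / β) = y
    rw [this, map_add, map_smul, e, smul_eq_mul]
    field_simp
    ring)
  have s4 : (fun q : ℂ × ℂ => (q.1, Φ q)) '' N ∈ 𝓝 ((0 : ℂ), (0 : ℂ)) := by
    have := image_mem_map (m := fun q : ℂ × ℂ => (q.1, Φ q)) hN
    rw [s3] at this
    simpa only [h0] using this
  have s5 : Tendsto (fun δ : ℝ => ((δ : ℂ), (0 : ℂ))) (𝓝[>] 0) (𝓝 ((0 : ℂ), (0 : ℂ))) := by
    have : Continuous fun δ : ℝ => ((δ : ℂ), (0 : ℂ)) := by fun_prop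
    simpa using (this.tendsto 0).mono_left nhdsWithin_le_nhds
  obtain ⟨δ, ⟨⟨d, p⟩, hq, he⟩, hδ⟩ := ((s5.eventually s4).and self_mem_nhdsWithin).exists
  simp only [Prod.mk.injEq] at he
  obtain ⟨rfl, he⟩ := he
  exact ⟨δ, hδ, p, hq, he⟩

theorem exists_profile : ∃ (ν a : ℂ) (δ : ℝ) (U : Set ℂ) (h : ℂ → ℂ),
    -1 < ν.re ∧ ν.re < -1 / 2 ∧ 0 < a.im ∧ 0 < δ ∧ IsOpen U ∧
    (∀ σ : ℝ, 1 ≤ σ → σ ≤ 1 + δ → 1 + a * σ ∈ U) ∧ DifferentiableOn ℂ h U ∧
    (∀ w ∈ U, ode ν h w = 0) ∧ h (1 + a) = 0 ∧ h (1 + a * (1 + δ)) = 0 ∧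
    deriv h (1 + a) ≠ 0 := by
  have nb : ∀ z : ℂ, |z.re| ≤ 1 → |z.im| ≤ 1 → ‖z‖ ≤ 2 := fun z h1 h2 =>
    (Complex.norm_le_abs_re_add_abs_im z).trans (by linarith)
  have r1 : (kap - 1 / 2).re = -25 / 34 := by simp [kap]; norm_num
  have r2 : (-kap - 1 / 2).re = -9 / 34 := by simp [kap]; norm_num
  have i1 : (kap - 1 / 2).im = -16 / 17 := by simp [kap]
  have i2 : (-kap - 1 / 2).im = 16 / 17 := by simp [kap]; norm_num
  obtain ⟨F₁, z₁, d₁, o₁⟩ := exists_analytic_sol (ν := kap - 1 / 2)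
    (nb _ (by rw [r1, abs_le]; norm_num) (by rw [i1, abs_le]; norm_num)) (by rw [r1]; norm_num)
  obtain ⟨F₂, z₂, d₂, o₂⟩ := exists_analytic_sol (ν := -kap - 1 / 2)
    (nb _ (by rw [r2, abs_le]; norm_num) (by rw [i2, abs_le]; norm_num)) (by rw [r2]; norm_num)
  have hb : ball (0 : ℂ) (1 / 48) ∈ 𝓝 (0 : ℂ) := ball_mem_nhds _ (by norm_num)
  have A₁ : AnalyticAt ℂ F₁ 0 := d₁.analyticAt hb
  have A₂ : AnalyticAt ℂ F₂ 0 := d₂.analyticAt hb
  have s0 : pz ∈ slitPlane := slit_of_im pz_im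
  have s1 : pz - 1 ∈ slitPlane := slit_of_im (by simpa using pz_im)
  have w1 : AnalyticAt ℂ (fun q : ℂ × ℂ => q.1 * q.2) (0, pz) := analyticAt_fst.mul analyticAt_snd
  have w3 : AnalyticAt ℂ (fun q : ℂ × ℂ => q.2 - 1 + q.1 * q.2) (0, pz) :=
    (analyticAt_snd.sub analyticAt_const).add w1
  have w2 : AnalyticAt ℂ (fun q : ℂ × ℂ => q.1 * (q.2 - 1 + q.1 * q.2)) (0, pz) :=
    analyticAt_fst.mul w3
  have cmp : ∀ {F : ℂ → ℂ} {g : ℂ × ℂ → ℂ}, AnalyticAt ℂ F 0 → AnalyticAt ℂ g (0, pz) →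
      g (0, pz) = 0 → AnalyticAt ℂ (fun q => F (g q)) (0, pz) := fun hF hg h =>
    AnalyticAt.comp_of_eq hF hg h
  have hΦ : AnalyticAt ℂ (fun q : ℂ × ℂ => (q.2 - 1 + q.1 * q.2) ^ kap
      * F₂ (q.1 * (q.2 - 1 + q.1 * q.2)) * F₁ (q.1 * q.2)
      - q.2 ^ kap * F₂ (q.1 * q.2) * F₁ (q.1 * (q.2 - 1 + q.1 * q.2))) (0, pz) :=
    (((w3.cpow analyticAt_const (by simpa using s1)).mul (cmp A₂ w2 (by simp))).mul
      (cmp A₁ w1 (by simp))).sub
    (((analyticAt_snd.cpow analyticAt_const s0).mul (cmp A₂ w1 (by simp))).mul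
      (cmp A₁ w2 (by simp)))
  have hd : HasDerivAt (fun p : ℂ => (p - 1 + 0 * p) ^ kap * F₂ (0 * (p - 1 + 0 * p)) * F₁ (0 * p)
      - p ^ kap * F₂ (0 * p) * F₁ (0 * (p - 1 + 0 * p)))
      (kap * (pz - 1) ^ kap / (pz - 1) - kap * pz ^ kap / pz) pz := by
    simp only [zero_mul, add_zero, z₁, z₂, mul_one]
    exact ((hasDerivAt_cpow' s1).comp_sub_const pz 1).sub (hasDerivAt_cpow' s0)
  have hβ : kap * (pz - 1) ^ kap / (pz - 1) - kap * pz ^ kap / pz ≠ 0 := by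
    have n1 := slitPlane_ne_zero s1
    have n0 := pz_ne
    have n2 : pz ^ kap ≠ 0 := by simp [n0]
    have : kap * (pz - 1) ^ kap / (pz - 1) - kap * pz ^ kap / pz
        = kap * pz ^ kap / ((pz - 1) * pz) := by
      rw [pz_cpow]; field_simp; ring
    rw [this]
    exact div_ne_zero (mul_ne_zero kap_ne n2) (mul_ne_zero n1 n0)
  have W : AnalyticAt ℂ (fun w => kap * F₁ w * F₂ w
      + w * (F₁ w * deriv F₂ w - deriv F₁ w * F₂ w)) 0 :=
    ((analyticAt_const.mul A₁).mul A₂).add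
      (analyticAt_id.mul ((A₁.mul A₂.deriv).sub (A₁.deriv.mul A₂)))
  have N1 : ∀ᶠ q : ℂ × ℂ in 𝓝 (0, pz), 0 < q.2.im :=
    (by fun_prop : Continuous fun q : ℂ × ℂ => q.2.im).continuousAt.eventually
      (lt_mem_nhds pz_im)
  have N2 : ∀ᶠ q : ℂ × ℂ in 𝓝 (0, pz), q.1 * q.2 ∈ ball (0 : ℂ) (1 / 48) :=
    w1.continuousAt.eventually_mem (by simpa only [zero_mul] using hb)
  have N3 : ∀ᶠ q : ℂ × ℂ in 𝓝 (0, pz), q.1 * (q.2 - 1 + q.1 * q.2) ∈ ball (0 : ℂ) (1 / 48) :=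
    w2.continuousAt.eventually_mem (by simpa only [zero_mul] using hb)
  have N4 : ∀ᶠ q : ℂ × ℂ in 𝓝 (0, pz), kap * F₁ (q.1 * q.2) * F₂ (q.1 * q.2) + (q.1 * q.2)
      * (F₁ (q.1 * q.2) * deriv F₂ (q.1 * q.2) - deriv F₁ (q.1 * q.2) * F₂ (q.1 * q.2)) ≠ 0 :=
    (cmp W w1 (by simp)).continuousAt.eventually_ne (by simpa [z₁, z₂] using kap_ne)
  obtain ⟨δ, hδ, p, ⟨n1, n2, n3, n4⟩, hz⟩ := exists_zero hΦ (by simp [z₁, z₂, pz_cpow]) hd hβ
    (N1.and (N2.and (N3.and N4)))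
  simp only at n1 n2 n3 n4 hz
  have hU : IsOpen (ball (0 : ℂ) (1 / 48) ∩ {w | 0 < w.im}) :=
    isOpen_ball.inter (isOpen_lt continuous_const Complex.continuous_im)
  obtain ⟨c1, c2, c3⟩ := comb_sol (κ := kap) (C₁ := (δ * p) ^ kap * F₂ (δ * p)) (C₂ := F₁ (δ * p))
    hU (fun w hw => slit_of_im hw.2) (d₁.mono inter_subset_left) (d₂.mono inter_subset_left)
    (fun w hw => o₁ w hw.1) (fun w hw => o₂ w hw.1)
  have ia : 0 < ((δ : ℂ) * p - 1).im := by simpa using mul_pos hδ n1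
  have e1 : 1 + ((δ : ℂ) * p - 1) = δ * p := by ring
  have e2 : 1 + ((δ : ℂ) * p - 1) * (1 + δ) = δ * (p - 1 + δ * p) := by ring
  have p0 : p ≠ 0 := fun h => by simp [h] at n1
  have p1 : p - 1 + δ * p ≠ 0 := fun h => by
    have := congrArg Complex.im h
    simp only [add_im, sub_im, one_im, sub_zero, mul_im, ofReal_re, ofReal_im, zero_mul, add_zero,
      zero_im] at this
    nlinarith [mul_pos hδ n1]
  have m1 : (δ : ℂ) * p ∈ ball (0 : ℂ) (1 / 48) ∩ {w | 0 < w.im} :=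
    ⟨n2, by simpa using mul_pos hδ n1⟩
  refine ⟨kap - 1 / 2, δ * p - 1, δ, _, _, by rw [r1]; norm_num, by rw [r1]; norm_num, ia, hδ, hU,
    fun σ s1 s2 => ⟨?_, ?_⟩, c1, c3, ?_, ?_, ?_⟩
  · have := (convex_ball (0 : ℂ) (1 / 48)) n2 n3 (a := (1 + δ - σ) / δ) (b := (σ - 1) / δ)
      (div_nonneg (by linarith) hδ.le) (div_nonneg (by linarith) hδ.le) (by field_simp; ring)
    convert this using 1
    have h0 : (δ : ℂ) ≠ 0 := by exact_mod_cast hδ.ne'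
    simp only [Complex.real_smul]
    push_cast
    field_simp
    ring
  · simp only [mem_ofPred_eq, add_im, one_im, mul_im, ofReal_im, mul_zero, ofReal_re, zero_add]
    exact mul_pos ia (by linarith)
  · rw [e1]; ring
  · rw [e2, cpow_real_mul hδ p0, cpow_real_mul hδ p1]
    linear_combination (-(δ : ℂ) ^ kap) * hz
  · rw [e1, c2 _ m1]
    have h0 := slitPlane_ne_zero (slit_of_im m1.2)
    have n5 : ((δ : ℂ) * p) ^ kap ≠ 0 := by
      rw [Complex.cpow_def_of_ne_zero h0]; exact Complex.exp_ne_zero _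
    intro h
    apply n4
    generalize (δ : ℂ) * p = w at *
    have := mul_left_cancel₀ n5 (show w ^ kap * (kap * F₁ w * F₂ w
      + w * (F₁ w * deriv F₂ w - deriv F₁ w * F₂ w)) = w ^ kap * 0 by
        have i1 : kap / w * w = kap := div_mul_cancel₀ _ h0
        linear_combination (-w) * h - w ^ kap * F₁ w * F₂ w * i1)
    exact this

end Pool.Agent.Lib.MP_322279_an
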