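import Pool.Agent.Lib.MP_322279_an.Calc
import Pool.Agent.Lib.MP_322279_an.Profile

/-!
Functions with separated variables `Θ(x₃) G(1 + a (x₁² + x₂²) / x₃²)`.
-/

namespace Pool.Agent.Lib.MP_322279_an

open Set Filter Topology
open scoped ContDiff

variable {a : ℂ} {U : Set ℂ} {Θ Θ₁ Θ₂ : ℝ → ℂ} {G : ℂ → ℂ} {x : E3}

/-- The squared tangent of the polar angle. -/
noncomputable def sg (x : E3) : ℝ := (x 0 ^ 2 + x 1 ^ 2) / x 2 ^ 2

/-- The complex angular variable. -/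
noncomputable def wf (a : ℂ) (x : E3) : ℂ := 1 + a * sg x

/-- The domain of definition. -/
def Dm (a : ℂ) (U : Set ℂ) : Set E3 := {x | 0 < x 2 ∧ wf a x ∈ U}

/-- A function with separated variables. -/
noncomputable def sep (a : ℂ) (Θ : ℝ → ℂ) (G : ℂ → ℂ) (x : E3) : ℂ := Θ (x 2) * G (wf a x)

lemma cd_coord (j : Fin 3) : ContDiff ℝ ∞ fun y : E3 => y j :=
  (EuclideanSpace.proj (𝕜 := ℝ) j).contDiff

lemma isOpen_up : IsOpen {x : E3 | 0 < x 2} := isOpen_lt continuous_const (by fun_prop)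

lemma cd_sg : ContDiffOn ℝ ∞ sg {x | 0 < x 2} :=
  (((cd_coord 0).pow 2).add ((cd_coord 1).pow 2)).contDiffOn.div ((cd_coord 2).pow 2).contDiffOn
    fun _ hx => pow_ne_zero 2 (ne_of_gt hx)

lemma cd_wf : ContDiffOn ℝ ∞ (wf a) {x | 0 < x 2} :=
  contDiffOn_const.add (contDiffOn_const.mul (Complex.ofRealCLM.contDiff.comp_contDiffOn cd_sg))

lemma isOpen_Dm (hU : IsOpen U) : IsOpen (Dm a U) :=
  cd_wf.continuousOn.isOpen_inter_preimage isOpen_up hU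

lemma cd_sep (hU : IsOpen U) (hΘ : ContDiffOn ℝ ∞ Θ (Ioi 0)) (hG : DifferentiableOn ℂ G U) :
    ContDiffOn ℝ ∞ (sep a Θ G) (Dm a U) :=
  (hΘ.comp (cd_coord 2).contDiffOn fun _ hx => hx.1).mul
    (((hG.contDiffOn hU).restrict_scalars ℝ).comp (cd_wf.mono fun _ hx => hx.1) fun _ hx => hx.2)

lemma pd_coord {F : ℝ → ℂ} {F' : ℂ} {i j : Fin 3} (h : HasDerivAt F F' (x j)) :
    pd i (fun y : E3 => F (y j)) x = if j = i then F' else 0 := by
  rw [pd_comp_real (b := fun y : E3 => y j) ((cd_coord j).differentiable (by simp) x) h,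
    fderiv_coord]
  split_ifs <;> simp

lemma diff_coord {F : ℝ → ℂ} {F' : ℂ} {j : Fin 3} (h : HasDerivAt F F' (x j)) :
    DifferentiableAt ℝ (fun y : E3 => F (y j)) x :=
  h.differentiableAt.comp x ((cd_coord j).differentiable (by simp) x)

lemma hd_id (t : ℝ) : HasDerivAt (fun s : ℝ => (s : ℂ)) 1 t := by
  simpa using (hasDerivAt_id t).ofReal_comp

lemma hd_sq (t : ℝ) : HasDerivAt (fun s : ℝ => (s : ℂ) ^ 2) (2 * t) t := by
  have : HasDerivAt (fun s : ℝ => (s : ℂ) ^ 2) _ t := (hd_id t).pow 2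
  exact this.congr_deriv (by simp)

lemma pd_wf (hx : 0 < x 2) (i : Fin 3) : pd i (wf a) x =
    if i = 2 then -2 * (wf a x - 1) / x 2 else 2 * a * x i / x 2 ^ 2 := by
  have z : ((x 2 : ℝ) : ℂ) ≠ 0 := by exact_mod_cast hx.ne'
  have e : wf a = fun y : E3 => 1 + a * ((((y 0 : ℝ) : ℂ) ^ 2 + ((y 1 : ℝ) : ℂ) ^ 2)
      * (((y 2 : ℝ) : ℂ) ^ 2)⁻¹) := by
    funext y; simp [wf, sg, div_eq_mul_inv]
  have h2 := (hd_sq (x 2)).inv (pow_ne_zero 2 z)
  have d0 := diff_coord (hd_sq (x 0))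
  have d1 := diff_coord (hd_sq (x 1))
  have d2 : DifferentiableAt ℝ (fun y : E3 => (((y 2 : ℝ) : ℂ) ^ 2)⁻¹) x := diff_coord h2
  have p2 : pd i (fun y : E3 => (((y 2 : ℝ) : ℂ) ^ 2)⁻¹) x = _ := pd_coord h2
  rw [e, pd_add (differentiableAt_const _) (((d0.fun_add d1).fun_mul d2).const_mul a), pd_const,
    pd_const_mul a ((d0.fun_add d1).fun_mul d2), pd_mul (d0.fun_add d1) d2, pd_add d0 d1,
    pd_coord (hd_sq (x 0)), pd_coord (hd_sq (x 1)), p2]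
  fin_cases i <;> simp <;> field_simp

lemma pd_sep (hU : IsOpen U) (hG : DifferentiableOn ℂ G U) (hx : x ∈ Dm a U) {T : ℂ}
    (hΘ : HasDerivAt Θ T (x 2)) (i : Fin 3) : pd i (sep a Θ G) x =
    if i = 2 then T * G (wf a x) + Θ (x 2) / x 2 * (-2 * (wf a x - 1) * deriv G (wf a x))
    else x i * (2 * a * Θ (x 2) / x 2 ^ 2 * deriv G (wf a x)) := by
  have dw : DifferentiableAt ℝ (wf a) x := diffAt isOpen_up cd_wf hx.1
  have hg := hasDerivAt_of_on hU hG hx.2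
  have : sep a Θ G = fun y => Θ (y 2) * G (wf a y) := rfl
  have dg : DifferentiableAt ℝ (fun y => G (wf a y)) x :=
    (hg.differentiableAt.restrictScalars ℝ).comp x dw
  rw [this, pd_mul (diff_coord hΘ) dg, pd_coord hΘ, pd_comp_complex dw hg, pd_wf hx.1]
  fin_cases i <;> simp <;> ring

lemma diff_sep (hU : IsOpen U) (hG : DifferentiableOn ℂ G U) (hx : x ∈ Dm a U) {T : ℂ}
    (hΘ : HasDerivAt Θ T (x 2)) : DifferentiableAt ℝ (sep a Θ G) x :=
  (diff_coord hΘ).mul (((hasDerivAt_of_on hU hG hx.2).differentiableAt.restrictScalars ℝ).comp x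
    (diffAt isOpen_up cd_wf hx.1))

/-- The operator applied to a function with separated variables. -/
lemma lap_sep {ν : ℂ} (hU : IsOpen U) (hG : DifferentiableOn ℂ G U) (ho : ∀ w ∈ U, ode ν G w = 0)
    (h₁ : ∀ t, 0 < t → HasDerivAt Θ (Θ₁ t) t) (h₂ : ∀ t, 0 < t → HasDerivAt Θ₁ (Θ₂ t) t)
    (hx : x ∈ Dm a U) :
    pd 0 (pd 0 (sep a Θ G)) x + pd 1 (pd 1 (sep a Θ G)) x + a * pd 2 (pd 2 (sep a Θ G)) x
      = a * ((Θ₂ (x 2) - ν * (ν - 1) * Θ (x 2) / x 2 ^ 2) * G (wf a x)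
        - 4 * (Θ₁ (x 2) - ν * Θ (x 2) / x 2) / x 2 * ((wf a x - 1) * deriv G (wf a x))) := by
  have z : ((x 2 : ℝ) : ℂ) ≠ 0 := by exact_mod_cast hx.1.ne'
  have nb := (isOpen_Dm hU).mem_nhds hx
  have hG' := hG.deriv hU
  have q1 : HasDerivAt (fun t : ℝ => 2 * a * Θ t / (t : ℂ) ^ 2) _ (x 2) :=
    ((h₁ _ hx.1).const_mul (2 * a)).div (hd_sq (x 2)) (pow_ne_zero 2 z)
  have e0 : ∀ i : Fin 3, i ≠ 2 → pd i (pd i (sep a Θ G)) x
      = 2 * a * Θ (x 2) / x 2 ^ 2 * deriv G (wf a x) + x i * (x i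
        * (2 * a * (2 * a * Θ (x 2) / x 2 ^ 2) / x 2 ^ 2 * deriv (deriv G) (wf a x))) := by
    intro i hi
    have : pd i (sep a Θ G) =ᶠ[𝓝 x] fun y => ((y i : ℝ) : ℂ)
        * sep a (fun t => 2 * a * Θ t / (t : ℂ) ^ 2) (deriv G) y := by
      filter_upwards [nb] with y hy
      rw [pd_sep hU hG hy (h₁ _ hy.1), if_neg hi]; rfl
    rw [pd_congr this, pd_mul (diff_coord (hd_id _)) (diff_sep hU hG' hx q1), pd_coord (hd_id _),
      pd_sep hU hG' hx q1, if_pos rfl, if_neg hi, one_mul]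
    rfl
  have q2 : HasDerivAt (fun t : ℝ => Θ t / (t : ℂ)) _ (x 2) := (h₁ _ hx.1).div (hd_id (x 2)) z
  have g1 : ∀ w ∈ U, HasDerivAt (fun w => -2 * (w - 1) * deriv G w)
      (-2 * deriv G w + -2 * (w - 1) * deriv (deriv G) w) w := fun w hw => by
    have : HasDerivAt (fun w => -2 * (w - 1) * deriv G w) _ w :=
      (((hasDerivAt_id w).sub_const 1).const_mul (-2)).mul (hasDerivAt_of_on hU hG' hw)
    exact this.congr_deriv (by simp)
  have g2 : DifferentiableOn ℂ (fun w => -2 * (w - 1) * deriv G w) U := fun w hw =>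
    (g1 w hw).differentiableAt.differentiableWithinAt
  have e2 : pd 2 (sep a Θ G) =ᶠ[𝓝 x] fun y => sep a Θ₁ G y
      + sep a (fun t => Θ t / (t : ℂ)) (fun w => -2 * (w - 1) * deriv G w) y := by
    filter_upwards [nb] with y hy
    rw [pd_sep hU hG hy (h₁ _ hy.1), if_pos rfl]; rfl
  rw [e0 0 (by decide), e0 1 (by decide), pd_congr e2,
    pd_add (diff_sep hU hG hx (h₂ _ hx.1)) (diff_sep hU g2 hx q2), pd_sep hU hG hx (h₂ _ hx.1),
    pd_sep hU g2 hx q2, if_pos rfl, if_pos rfl, (g1 _ hx.2).deriv]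
  have o := ho _ hx.2
  rw [ode] at o
  have ew : a * (((x 0 : ℝ) : ℂ) ^ 2 + ((x 1 : ℝ) : ℂ) ^ 2) = (wf a x - 1) * ((x 2 : ℝ) : ℂ) ^ 2 := by
    simp only [wf, sg]; push_cast; field_simp; ring
  generalize wf a x = w at *
  field_simp
  linear_combination a * ((x 2 : ℝ) : ℂ) ^ 2 * Θ (x 2) * o
    + 4 * a * Θ (x 2) * deriv (deriv G) w * ew

end Pool.Agent.Lib.MP_322279_an
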