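import Pool.Agent.Lib.MP_322279_an.Approx
import Pool.Agent.Lib.MP_322279_an.Sep

/-!
Geometry of the cone and estimates for truncated homogeneous solutions.
-/

namespace Pool.Agent.Lib.MP_322279_an

open MeasureTheory Set Filter Topology Metric
open scoped ContDiff

variable {a ν l : ℂ} {δ s t L : ℝ} {U : Set ℂ} {h : ℂ → ℂ} {x : E3}

/-- The cone described by polynomial inequalities. -/
def Om (δ : ℝ) : Set E3 :=
  {x | ‖x‖ < 1 ∧ 0 < x 2 ∧ x 2 ^ 2 < x 0 ^ 2 + x 1 ^ 2 ∧ x 0 ^ 2 + x 1 ^ 2 < (1 + δ) * x 2 ^ 2}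

/-- A closed slab of the cone. -/
def Ks (δ s t : ℝ) : Set E3 :=
  {x | s ≤ x 2 ∧ x 2 ≤ t ∧ x 2 ^ 2 ≤ x 0 ^ 2 + x 1 ^ 2 ∧ x 0 ^ 2 + x 1 ^ 2 ≤ (1 + δ) * x 2 ^ 2}

lemma norm_sq3 (x : E3) : ‖x‖ ^ 2 = x 0 ^ 2 + x 1 ^ 2 + x 2 ^ 2 := by
  rw [EuclideanSpace.real_norm_sq_eq, Fin.sum_univ_three]

lemma zone_eq (hδ : 0 < δ) : zoneCone (1 / √(2 + δ)) (1 / √2) = Om δ := by
  ext x
  have n := norm_sq3 x
  have n0 := norm_nonneg x
  have p1 : 0 < √(2 + δ) := by positivity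
  have p2 : 0 < √2 := by positivity
  have q1 : √(2 + δ) ^ 2 = 2 + δ := Real.sq_sqrt (by positivity)
  have q2 : √2 ^ 2 = 2 := Real.sq_sqrt (by positivity)
  simp only [zoneCone, Om, mem_ofPred_eq, one_div, inv_mul_lt_iff₀ p1, lt_inv_mul_iff₀ p2]
  refine and_congr_right fun _ => ⟨fun ⟨h1, h2⟩ => ?_, fun ⟨z, h1, h2⟩ => ⟨?_, ?_⟩⟩
  · have z : 0 < x 2 := pos_of_mul_pos_right (n0.trans_lt h1) p1.le
    have k1 := pow_lt_pow_left₀ h1 n0 two_ne_zero
    have k2 := pow_lt_pow_left₀ h2 (by positivity) two_ne_zero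
    rw [mul_pow] at k1 k2
    exact ⟨z, by nlinarith, by nlinarith⟩
  · exact lt_of_pow_lt_pow_left₀ 2 (by positivity) (by rw [mul_pow]; nlinarith)
  · exact lt_of_pow_lt_pow_left₀ 2 n0 (by rw [mul_pow]; nlinarith)

lemma isOpen_Om : IsOpen (Om δ) := by
  unfold Om
  refine IsOpen.and ?_ (IsOpen.and ?_ (IsOpen.and ?_ ?_)) <;>
    exact isOpen_lt (by fun_prop) (by fun_prop)

lemma norm_le_z (hδ : 0 < δ) (z : 0 ≤ x 2) (h2 : x 0 ^ 2 + x 1 ^ 2 ≤ (1 + δ) * x 2 ^ 2) :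
    ‖x‖ ≤ (2 + δ) * x 2 := by
  refine le_of_pow_le_pow_left₀ two_ne_zero (by positivity) ?_
  rw [norm_sq3, mul_pow]
  nlinarith [mul_nonneg (mul_pos hδ hδ).le (sq_nonneg (x 2)), mul_nonneg hδ.le (sq_nonneg (x 2)),
    sq_nonneg (x 2)]

lemma z_lt (hx : x ∈ Om δ) : 0 < x 2 ∧ x 2 < 1 :=
  ⟨hx.2.1, ((le_abs_self _).trans (PiLp.norm_apply_le x 2)).trans_lt hx.1⟩

lemma isCompact_Ks (hδ : 0 < δ) (hs : 0 ≤ s) : IsCompact (Ks δ s t) := by
  refine (isCompact_closedBall (0 : E3) ((2 + δ) * t)).of_isClosed_subset ?_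
    fun x hx => mem_closedBall_zero_iff.2 ?_
  · unfold Ks
    refine IsClosed.and ?_ (IsClosed.and ?_ (IsClosed.and ?_ ?_)) <;>
      exact isClosed_le (by fun_prop) (by fun_prop)
  exact (norm_le_z hδ (hs.trans hx.1) hx.2.2.2).trans
    (mul_le_mul_of_nonneg_left hx.2.1 (by positivity))

instance : IsFiniteMeasure (volume.restrict (Om δ)) :=
  isFiniteMeasure_restrict.2 ((measure_mono fun x hx => mem_ball_zero_iff.2 hx.1).trans_lt
    (measure_ball_lt_top (x := (0 : E3)) (r := 1))).ne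

lemma sg_mem (z : 0 < x 2) (h1 : x 2 ^ 2 ≤ x 0 ^ 2 + x 1 ^ 2)
    (h2 : x 0 ^ 2 + x 1 ^ 2 ≤ (1 + δ) * x 2 ^ 2) : 1 ≤ sg x ∧ sg x ≤ 1 + δ :=
  ⟨(one_le_div (by positivity)).2 h1, (div_le_iff₀ (by positivity)).2 h2⟩

lemma vol_ball (x : E3) (hs : 0 ≤ s) :
    volume.real (closedBall x s) = s ^ 3 * volume.real (ball (0 : E3) 1) := by
  rw [Measure.addHaar_real_closedBall _ _ hs]; simp

/-- Bounds for the angular profile. -/
lemma prof_bound (hδ : 0 < δ) (hU : IsOpen U) (hm : ∀ σ : ℝ, 1 ≤ σ → σ ≤ 1 + δ → 1 + a * σ ∈ U)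
    (hh : DifferentiableOn ℂ h U) (z1 : h (1 + a) = 0) (z2 : h (1 + a * (1 + δ)) = 0) :
    ∃ L, 0 ≤ L ∧ ∀ σ : ℝ, 1 ≤ σ → σ ≤ 1 + δ → ‖h (1 + a * σ)‖ ≤ L * ((σ - 1) * (1 + δ - σ))
      ∧ ‖h (1 + a * σ)‖ ≤ L ∧ ‖a * σ * deriv h (1 + a * σ)‖ ≤ L := by
  have c : ContinuousOn (fun σ : ℝ => deriv h (1 + a * σ) * a) (Icc 1 (1 + δ)) :=
    ((hh.deriv hU).continuousOn.comp (by fun_prop) fun σ hσ => hm σ hσ.1 hσ.2).mul continuousOn_const
  obtain ⟨B, hB⟩ := isCompact_Icc.exists_bound_of_continuousOn c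
  have m1 : (1 : ℝ) ∈ Icc 1 (1 + δ) := ⟨le_rfl, by linarith⟩
  have m2 : (1 + δ : ℝ) ∈ Icc 1 (1 + δ) := ⟨by linarith, le_rfl⟩
  have B0 : 0 ≤ B := (norm_nonneg _).trans (hB 1 m1)
  have d : ∀ σ ∈ Icc (1 : ℝ) (1 + δ), HasDerivWithinAt (fun σ : ℝ => h (1 + a * σ))
      (deriv h (1 + a * σ) * a) (Icc 1 (1 + δ)) σ := fun σ hσ => by
    have := (hasDerivAt_of_on hU hh (hm σ hσ.1 hσ.2)).comp σ
      (((hd_id σ).const_mul a).const_add 1)
    rw [mul_one] at this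
    exact this.hasDerivWithinAt
  refine ⟨2 * B / δ + B * (1 + δ), by positivity, fun σ s1 s2 => ?_⟩
  have l1 := (convex_Icc _ _).norm_image_sub_le_of_norm_hasDerivWithin_le d hB m1 ⟨s1, s2⟩
  have l2 := (convex_Icc _ _).norm_image_sub_le_of_norm_hasDerivWithin_le d hB m2 ⟨s1, s2⟩
  push_cast at l1 l2
  rw [mul_one, z1, sub_zero, Real.norm_of_nonneg (by linarith)] at l1
  rw [z2, sub_zero, Real.norm_of_nonpos (by linarith)] at l2
  have p1 : 0 ≤ 2 * B / δ := by positivity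
  have p2 : 0 ≤ B * (1 + δ) := by positivity
  have p3 : 0 ≤ (σ - 1) * (1 + δ - σ) := mul_nonneg (by linarith) (by linarith)
  refine ⟨?_, by nlinarith, ?_⟩
  · refine le_trans ?_ (mul_le_mul_of_nonneg_right (le_add_of_nonneg_right p2) p3)
    rw [div_mul_eq_mul_div, le_div_iff₀ hδ]
    nlinarith [mul_le_mul_of_nonneg_right l1 (sub_nonneg.2 s2),
      mul_le_mul_of_nonneg_right l2 (sub_nonneg.2 s1)]
  · have := hB σ ⟨s1, s2⟩
    rw [show a * σ * deriv h (1 + a * σ) = deriv h (1 + a * σ) * a * σ by ring, norm_mul,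
      Complex.norm_real, Real.norm_of_nonneg (by linarith)]
    exact (mul_le_mul this s2 (by linarith) B0).trans (le_add_of_nonneg_left p1)

/-- The power function with complex exponent. -/
noncomputable def pw (ν : ℂ) (t : ℝ) : ℂ := Complex.exp (ν * Real.log t)

lemma cd_pw : ContDiffOn ℝ ∞ (pw ν) (Ioi 0) :=
  (Complex.contDiff_exp (𝕜 := ℝ)).comp_contDiffOn (contDiffOn_const.mul
    (Complex.ofRealCLM.contDiff.comp_contDiffOn (Real.contDiffOn_log.mono fun _ ht => ne_of_gt ht)))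

lemma hd_pw (ht : 0 < t) : HasDerivAt (pw ν) (ν * pw ν t / t) t := by
  have : HasDerivAt (pw ν) _ t := (((Real.hasDerivAt_log ht.ne').ofReal_comp).const_mul ν).cexp
  refine this.congr_deriv ?_
  rw [pw]; push_cast; ring

lemma norm_pw (ht : 0 < t) : ‖pw ν t‖ = t ^ ν.re := by
  rw [pw, Complex.norm_exp, Real.rpow_def_of_pos ht, Complex.re_mul_ofReal, mul_comm]

/-- The diagonal of the coefficient matrix. -/
def dv (l a : ℂ) : Fin 3 → ℂ := ![l, l, l * a]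

lemma op_sep {θ θ₁ θ₂ : ℝ → ℂ} (hU : IsOpen U) (hh : DifferentiableOn ℂ h U)
    (ho : ∀ w ∈ U, ode ν h w = 0) (h₁ : ∀ t, HasDerivAt θ (θ₁ t) t)
    (h₂ : ∀ t, HasDerivAt θ₁ (θ₂ t) t) (hx : x ∈ Dm a U) :
    op (diagM (dv l a)) (sep a (fun t => θ t * pw ν t) h) x
      = l * a * pw ν (x 2) * ((θ₂ (x 2) + 2 * ν * (θ₁ (x 2) / x 2)) * h (wf a x)
        - 4 * (θ₁ (x 2) / x 2) * ((wf a x - 1) * deriv h (wf a x))) := by
  have k := lap_sep (Θ := fun t => θ t * pw ν t)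
    (Θ₁ := fun t => θ₁ t * pw ν t + θ t * (ν * pw ν t / t))
    (Θ₂ := fun t => θ₂ t * pw ν t + θ₁ t * (ν * pw ν t / t) + (θ₁ t * (ν * pw ν t / t)
      + θ t * ((ν * (ν * pw ν t / t) * t - ν * pw ν t * 1) / t ^ 2))) hU hh ho
    (fun t ht => (h₁ t).mul (hd_pw ht))
    (fun t ht => ((h₂ t).mul (hd_pw ht)).add ((h₁ t).mul
      (((hd_pw ht).const_mul ν).div (hd_id t) (by exact_mod_cast ht.ne')))) hx
  have z : ((x 2 : ℝ) : ℂ) ≠ 0 := by exact_mod_cast hx.1.ne'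
  rw [op_diag, Fin.sum_univ_three]
  simp only [dv, Matrix.cons_val_zero, Matrix.cons_val_one, Matrix.cons_val]
  rw [show ∀ p q r : ℂ, l * p + l * q + l * a * r = l * (p + q + a * r) from fun _ _ _ => by ring, k]
  field_simp
  ring

lemma hd_chis (s t : ℝ) : HasDerivAt (fun t => chi (t / s)) (deriv chi (t / s) / s) t := by
  have := (hd_chi (t / s)).scomp t ((hasDerivAt_id t).div_const s)
  refine HasDerivAt.congr_deriv this ?_
  simp [div_eq_inv_mul]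

lemma hd_chis1 (s t : ℝ) : HasDerivAt (fun t => deriv chi (t / s) / s)
    (deriv (deriv chi) (t / s) / s ^ 2) t := by
  have := ((hd_chi1 (t / s)).scomp t ((hasDerivAt_id t).div_const s)).div_const (s : ℂ)
  refine HasDerivAt.congr_deriv this ?_
  simp only [Complex.real_smul]; push_cast; ring

/-- The error term produced by the cut-off at scale `s`. -/
noncomputable def Rr (l a ν : ℂ) (h : ℂ → ℂ) (s : ℝ) (x : E3) : ℂ :=
  l * a * pw ν (x 2) * ((deriv (deriv chi) (x 2 / s) / s ^ 2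
    + 2 * ν * (deriv chi (x 2 / s) / s / x 2)) * h (wf a x)
    - 4 * (deriv chi (x 2 / s) / s / x 2) * ((wf a x - 1) * deriv h (wf a x)))

lemma Rr_zero (hs : 0 < s) (hx : x 2 ∉ Icc s (2 * s)) : Rr l a ν h s x = 0 := by
  have : x 2 / s ∉ Icc (1 : ℝ) 2 := fun k =>
    hx ⟨(one_le_div hs).1 k.1, (div_le_iff₀ hs).1 k.2⟩
  simp [Rr, (chi_deriv this).1, (chi_deriv this).2]

lemma Rr_bound (hν : ν.re ≤ 0) (L0 : 0 ≤ L) (hL : ∀ x ∈ Om δ, ‖h (wf a x)‖ ≤ L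
    ∧ ‖(wf a x - 1) * deriv h (wf a x)‖ ≤ L) :
    ∃ C, 0 ≤ C ∧ ∀ s, 0 < s → ∀ x ∈ Om δ, ‖Rr l a ν h s x‖ ≤ C * s ^ ν.re / s ^ 2 := by
  obtain ⟨C, C0, hC⟩ := chi_bound
  refine ⟨‖l * a‖ * ((C + 2 * ‖ν‖ * C) * L + 4 * C * L), by positivity, fun s hs x hx => ?_⟩
  by_cases hz : x 2 ∈ Icc s (2 * s)
  swap
  · rw [Rr_zero hs hz, norm_zero]; positivity
  have z := hx.2.1
  have n1 : ‖deriv chi (x 2 / s) / s / x 2‖ ≤ C / s ^ 2 := by
    rw [norm_div, norm_div, Complex.norm_real, Complex.norm_real, Real.norm_of_nonneg hs.le,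
      Real.norm_of_nonneg z.le, sq, ← div_div]
    gcongr
    · exact (hC _).2.1
    · exact hz.1
  have n2 : ‖deriv (deriv chi) (x 2 / s) / s ^ 2‖ ≤ C / s ^ 2 := by
    rw [norm_div, norm_pow, Complex.norm_real, Real.norm_of_nonneg hs.le]
    gcongr
    exact (hC _).2.2.2
  have n3 : ‖pw ν (x 2)‖ ≤ s ^ ν.re := by
    rw [norm_pw z]; exact Real.rpow_le_rpow_of_nonpos hs hz.1 hν
  rw [Rr, norm_mul, norm_mul]
  generalize deriv chi (x 2 / s) / s / x 2 = p at *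
  generalize deriv (deriv chi) (x 2 / s) / s ^ 2 = q at *
  calc _ ≤ ‖l * a‖ * s ^ ν.re * ((C / s ^ 2 + 2 * ‖ν‖ * (C / s ^ 2)) * L + 4 * (C / s ^ 2) * L) := by
        gcongr
        refine (norm_sub_le _ _).trans (add_le_add ?_ ?_)
        · rw [norm_mul]
          refine mul_le_mul ((norm_add_le _ _).trans (add_le_add n2 ?_)) (hL x hx).1 (norm_nonneg _)
            (by positivity)
          rw [norm_mul, norm_mul, Complex.norm_two]
          gcongr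
        · rw [norm_mul, norm_mul, Complex.norm_ofNat]
          gcongr
          exact (hL x hx).2
    _ = _ := by ring

/-- The error term tested against a function bounded near the vertex tends to zero. -/
lemma Rr_tendsto {u : E3 → ℂ} {C r M : ℝ} (hδ : 0 < δ) (hν : -1 < ν.re) (C0 : 0 ≤ C)
    (hC : ∀ s, 0 < s → ∀ x ∈ Om δ, ‖Rr l a ν h s x‖ ≤ C * s ^ ν.re / s ^ 2) (hr : 0 < r)
    (hu : ∀ x ∈ Om δ, ‖x‖ < r → ‖u x‖ ≤ M) :
    Tendsto (fun s => ∫ x in Om δ, u x * Rr l a ν h s x) (𝓝[>] 0) (𝓝 0) := by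
  set v := volume.real (ball (0 : E3) 1)
  have t1 : Tendsto (fun s : ℝ => |M| * C * ((2 + δ) * 2) ^ 3 * v * s ^ (ν.re + 1)) (𝓝[>] 0)
      (𝓝 0) := by
    have := ((Real.continuousAt_rpow_const 0 (ν.re + 1) (Or.inr (by linarith))).tendsto.mono_left
      (nhdsWithin_le_nhds (s := Ioi 0))).const_mul (|M| * C * ((2 + δ) * 2) ^ 3 * v)
    rwa [Real.zero_rpow (by linarith), mul_zero] at this
  refine squeeze_zero_norm' ?_ t1
  filter_upwards [Ioo_mem_nhdsGT (show 0 < r / ((2 + δ) * 2) by positivity)] with s hs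
  have s0 := hs.1
  have sr : (2 + δ) * 2 * s < r := by
    have := (lt_div_iff₀ (by positivity)).1 hs.2; linarith
  rw [setIntegral_eq_of_subset_of_forall_sdiff_eq_zero isOpen_Om.measurableSet
    (inter_subset_left (t := closedBall 0 ((2 + δ) * 2 * s))) fun x hx => ?_]
  · refine (norm_setIntegral_le_of_norm_le_const (C := |M| * (C * s ^ ν.re / s ^ 2))
      ((measure_mono inter_subset_right).trans_lt measure_closedBall_lt_top) fun x hx => ?_).trans ?_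
    · rw [norm_mul]
      exact mul_le_mul ((hu x hx.1 ((mem_closedBall_zero_iff.1 hx.2).trans_lt sr)).trans
        (le_abs_self _)) (hC s s0 x hx.1) (norm_nonneg _) (abs_nonneg _)
    · refine (mul_le_mul_of_nonneg_left (measureReal_mono inter_subset_right
        measure_closedBall_lt_top.ne) (by positivity)).trans (le_of_eq ?_)
      rw [vol_ball _ (by positivity), Real.rpow_add_one s0.ne']
      field_simp
      rfl
  · rw [Rr_zero s0 fun k => hx.2 ⟨hx.1, mem_closedBall_zero_iff.2 ?_⟩, mul_zero]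
    refine (norm_le_z hδ hx.1.2.1.le hx.1.2.2.2.le).trans ?_
    rw [mul_assoc]
    exact mul_le_mul_of_nonneg_left k.2 (by positivity)

end Pool.Agent.Lib.MP_322279_an
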