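import Mathlib

/-!
Definitions used in the statement: second-order operators with constant coefficients in three
dimensions, test functions, the Sobolev space with zero boundary values, generalized solutions of
the Dirichlet problem, and the cone over a spherical zone.
-/

namespace Pool.Agent.Lib.MP_322279_an

open MeasureTheory Set Filter Topology
open scoped ContDiff

/-- Euclidean three-space. -/
abbrev E3 : Type := EuclideanSpace ℝ (Fin 3)

/-- The derivative of `φ` with respect to the `i`-th coordinate. -/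
noncomputable def pd (i : Fin 3) (φ : E3 → ℂ) (x : E3) : ℂ :=
  fderiv ℝ φ x (EuclideanSpace.single i 1)

/-- The operator `∑ a_{ij} ∂_i ∂_j`. -/
noncomputable def op (A : Fin 3 → Fin 3 → ℂ) (φ : E3 → ℂ) (x : E3) : ℂ :=
  ∑ i, ∑ j, A i j * pd i (pd j φ) x

/-- Smooth functions with compact support in `Ω`. -/
def IsTest (Ω : Set E3) (φ : E3 → ℂ) : Prop :=
  ContDiff ℝ ∞ φ ∧ HasCompactSupport φ ∧ tsupport φ ⊆ Ω

/-- `u` lies in the closure of the test functions of `Ω` in the Sobolev space `H¹(Ω)`. -/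
def InH10 (Ω : Set E3) (u : E3 → ℂ) : Prop :=
  MemLp u 2 (volume.restrict Ω) ∧ ∃ (g : Fin 3 → E3 → ℂ) (φ : ℕ → E3 → ℂ),
    (∀ i, MemLp (g i) 2 (volume.restrict Ω)) ∧ (∀ k, IsTest Ω (φ k)) ∧
    Tendsto (fun k => eLpNorm (φ k - u) 2 (volume.restrict Ω)) atTop (𝓝 0) ∧
    ∀ i, Tendsto (fun k => eLpNorm (pd i (φ k) - g i) 2 (volume.restrict Ω)) atTop (𝓝 0)

/-- `u` is a generalized solution of the Dirichlet problem with zero boundary data and right-hand
side `f`: it lies in the Sobolev space with zero boundary values and solves the equation in the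
sense of distributions in `Ω`. -/
def IsSolution (A : Fin 3 → Fin 3 → ℂ) (Ω : Set E3) (f u : E3 → ℂ) : Prop :=
  InH10 Ω u ∧ ∀ φ, IsTest Ω φ → ∫ x in Ω, u x * op A φ x = ∫ x in Ω, f x * φ x

/-- The part inside the unit ball of the cone over the spherical zone `h₁ < ω₃ < h₂`. -/
def zoneCone (h₁ h₂ : ℝ) : Set E3 := {x | ‖x‖ < 1 ∧ h₁ * ‖x‖ < x 2 ∧ x 2 < h₂ * ‖x‖}

end Pool.Agent.Lib.MP_322279_an
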