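import Pool.Agent.Lib.MP_322279_an.Cone

/-!
The duality argument.
-/

namespace Pool.Agent.Lib.MP_322279_an

open MeasureTheory Set Filter Topology Metric
open scoped ContDiff

variable {a ν l : ℂ} {δ s s₀ t L : ℝ} {U : Set ℂ} {h : ℂ → ℂ} {x : E3}

lemma cd_chis (s : ℝ) : ContDiff ℝ ∞ fun t => chi (t / s) := cd_chi.comp (contDiff_id.div_const s)

lemma Om_sub (hm : ∀ σ : ℝ, 1 ≤ σ → σ ≤ 1 + δ → 1 + a * σ ∈ U) : Om δ ⊆ Dm a U := fun _ hx =>
  ⟨hx.2.1, hm _ (sg_mem hx.2.1 hx.2.2.1.le hx.2.2.2.le).1 (sg_mem hx.2.1 hx.2.2.1.le hx.2.2.2.le).2⟩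

lemma Rr_memLp {C : ℝ} (hU : IsOpen U) (hm : ∀ σ : ℝ, 1 ≤ σ → σ ≤ 1 + δ → 1 + a * σ ∈ U)
    (hh : DifferentiableOn ℂ h U) (ho : ∀ w ∈ U, ode ν h w = 0)
    (hC : ∀ x ∈ Om δ, ‖Rr l a ν h s x‖ ≤ C) :
    MemLp (Rr l a ν h s) 2 (volume.restrict (Om δ)) := by
  have c := cd_sep (a := a) hU ((cd_chis s).contDiffOn.mul (cd_pw (ν := ν))) hh
  have c' : ContinuousOn (fun x => ∑ i, dv l a i * pd i (pd i (sep a
      (fun t => chi (t / s) * pw ν t) h)) x) (Dm a U) := continuousOn_finsetSum _ fun i _ =>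
    continuousOn_const.mul (contDiffOn_pd (isOpen_Dm hU) (contDiffOn_pd (isOpen_Dm hU) c)).continuousOn
  refine MemLp.of_bound (((c'.congr fun x hx => ?_).mono (Om_sub hm)).aestronglyMeasurable
    isOpen_Om.measurableSet) C ((ae_restrict_mem isOpen_Om.measurableSet).mono hC)
  rw [← op_diag, op_sep hU hh ho (hd_chis s) (hd_chis1 s) hx]; rfl

/-- Green's identity for the doubly truncated homogeneous solution. -/
lemma trunc (hδ : 0 < δ) (hν : ν.re ≤ 0) (hU : IsOpen U)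
    (hm : ∀ σ : ℝ, 1 ≤ σ → σ ≤ 1 + δ → 1 + a * σ ∈ U) (hh : DifferentiableOn ℂ h U)
    (ho : ∀ w ∈ U, ode ν h w = 0) (L0 : 0 ≤ L)
    (hL : ∀ σ : ℝ, 1 ≤ σ → σ ≤ 1 + δ → ‖h (1 + a * σ)‖ ≤ L * ((σ - 1) * (1 + δ - σ)))
    (hs : 0 < s) (hs' : s ≤ s₀) (h0 : (2 + δ) * (2 * s₀) < 1)
    {u f : E3 → ℂ} {g : Fin 3 → E3 → ℂ} (hu : HG (Om δ) u g)
    (hf : MemLp f 2 (volume.restrict (Om δ)))
    (w : ∀ φ, IsTest (Om δ) φ →
      ∑ i, dv l a i * ∫ x in Om δ, g i x * pd i φ x = -∫ x in Om δ, f x * φ x) :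
    ∫ x in Om δ, (u x * Rr l a ν h s x - u x * Rr l a ν h s₀ x)
      = ∫ x in Om δ, f x * ((chi (x 2 / s) - chi (x 2 / s₀)) * pw ν (x 2) * h (wf a x)) := by
  have s0 : 0 < s₀ := hs.trans_le hs'
  set ψ := sep a (fun t => (chi (t / s) - chi (t / s₀)) * pw ν t) h with hψ
  have hK := isCompact_Ks (t := 2 * s₀) hδ hs.le
  have KD : Ks δ s (2 * s₀) ⊆ Dm a U := fun x hx =>
    have z := hs.trans_le hx.1
    ⟨z, hm _ (sg_mem z hx.2.2.1 hx.2.2.2).1 (sg_mem z hx.2.2.1 hx.2.2.2).2⟩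
  have v : ∀ x : E3, x 2 < s ∨ 2 * s₀ < x 2 → ψ x = 0 := by
    rintro x (k | k)
    · simp [hψ, sep, chi_zero ((div_le_one hs).2 k.le), chi_zero ((div_le_one s0).2 (k.le.trans hs'))]
    · simp [hψ, sep, chi_one ((le_div_iff₀ hs).2 (show 2 * s ≤ x 2 by linarith)),
        chi_one ((le_div_iff₀ s0).2 k.le)]
  have gd : Good (Om δ) (Dm a U) (Ks δ s (2 * s₀)) ψ :=
    ⟨cd_sep hU (((cd_chis s).sub (cd_chis s₀)).contDiffOn.mul cd_pw) hh, fun x hx hx' => v x <| by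
      by_contra k
      push Not at k
      exact hx' ⟨k.1, k.2, hx.2.2.1.le, hx.2.2.2.le⟩⟩
  have hg := gd.hg isOpen_Om (isOpen_Dm hU) (Om_sub hm) hK KD
    (b := fun x => (x 0 ^ 2 + x 1 ^ 2 - x 2 ^ 2) * ((1 + δ) * x 2 ^ 2 - (x 0 ^ 2 + x 1 ^ 2)))
    (M := 2 * s ^ ν.re * L / s ^ 4)
    (((((cd_coord 0).pow 2).add ((cd_coord 1).pow 2)).sub ((cd_coord 2).pow 2)).mul
      ((contDiff_const.mul ((cd_coord 2).pow 2)).sub (((cd_coord 0).pow 2).add ((cd_coord 1).pow 2))))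
    (fun x hx => mul_pos (sub_pos.2 hx.2.2.1) (sub_pos.2 hx.2.2.2))
    (fun x hx hb => by
      have z := hs.trans_le hx.1
      refine ⟨((norm_le_z hδ z.le hx.2.2.2).trans
        (mul_le_mul_of_nonneg_left hx.2.1 (by positivity))).trans_lt h0, z, ?_, ?_⟩
      · exact sub_pos.1 (pos_of_mul_pos_left hb (sub_nonneg.2 hx.2.2.2))
      · exact sub_pos.1 (pos_of_mul_pos_right hb (sub_nonneg.2 hx.2.2.1)))
    (fun x hx => by
      by_cases k : x 2 < s ∨ 2 * s₀ < x 2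
      · exact Or.inl (v x k)
      push Not at k
      have q := mul_nonneg hδ.le (sq_nonneg (x 2))
      by_cases k1 : x 2 ^ 2 ≤ x 0 ^ 2 + x 1 ^ 2
      · have k2 := not_le.1 fun k2 => hx ⟨k.1, k.2, k1, k2⟩
        exact Or.inr (mul_nonpos_of_nonneg_of_nonpos (by linarith) (by linarith))
      · exact Or.inr (mul_nonpos_of_nonpos_of_nonneg (by linarith) (by linarith)))
    (fun x hx => by
      have bp := mul_pos (sub_pos.2 hx.2.2.1) (sub_pos.2 hx.2.2.2)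
      have z := hx.2.1
      by_cases k : x 2 < s
      · rw [v x (Or.inl k), norm_zero]; positivity
      push Not at k
      obtain ⟨C, -, hC⟩ := chi_bound
      have m := sg_mem z hx.2.2.1.le hx.2.2.2.le
      have e : (sg x - 1) * (1 + δ - sg x) = (x 0 ^ 2 + x 1 ^ 2 - x 2 ^ 2)
          * ((1 + δ) * x 2 ^ 2 - (x 0 ^ 2 + x 1 ^ 2)) / x 2 ^ 4 := by
        rw [sg]; field_simp
      have n := hL _ m.1 m.2
      rw [e] at n
      simp only [hψ, sep, norm_mul]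
      generalize (x 0 ^ 2 + x 1 ^ 2 - x 2 ^ 2) * ((1 + δ) * x 2 ^ 2 - (x 0 ^ 2 + x 1 ^ 2)) = b at *
      calc _ ≤ 2 * s ^ ν.re * (L * (b / s ^ 4)) := by
            gcongr
            · exact (norm_sub_le _ _).trans (by linarith [(hC (x 2 / s)).1, (hC (x 2 / s₀)).1])
            · rw [norm_pw z]; exact Real.rpow_le_rpow_of_nonpos hs k hν
            · exact n.trans (by gcongr)
        _ = _ := by ring)
  refine Eq.trans (setIntegral_congr_fun isOpen_Om.measurableSet fun x hx => ?_)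
    (gd.dual isOpen_Om (isOpen_Dm hU) (Om_sub hm) hK KD hg hu hf w)
  rw [op_sep hU hh ho (fun t => (hd_chis s t).fun_sub (hd_chis s₀ t))
    (fun t => (hd_chis1 s t).fun_sub (hd_chis1 s₀ t)) (Om_sub hm hx), Rr, Rr]
  ring

/-- A ball in the cone on which the profile is bounded from below. -/
lemma exists_ball (hδ : 0 < δ) (hU : IsOpen U) (hm : ∀ σ : ℝ, 1 ≤ σ → σ ≤ 1 + δ → 1 + a * σ ∈ U)
    (hh : DifferentiableOn ℂ h U) (ha : a ≠ 0) (z1 : h (1 + a) = 0) (z3 : deriv h (1 + a) ≠ 0) :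
    ∃ (p : E3) (r c : ℝ), 0 < r ∧ 0 < c ∧ ∀ t, 0 < t → t ≤ 1 → ∀ x ∈ closedBall (t • p) (t * r),
      x ∈ Om δ ∧ x 2 < t ∧ c ≤ ‖h (wf a x)‖ := by
  have d : HasDerivAt (fun σ : ℝ => h (1 + a * σ)) (deriv h (1 + a) * (a * 1)) 1 := by
    have m := hm 1 le_rfl (by linarith)
    refine HasDerivAt.comp (h₂ := h) (1 : ℝ) ?_ (((hd_id 1).const_mul a).const_add 1)
    simpa using hasDerivAt_of_on hU hh m
  have ev := (d.eventually_ne (c := 0) (mul_ne_zero z3 (by simpa using ha))).filter_mono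
    (nhdsWithin_mono 1 (show Ioi (1 : ℝ) ⊆ {1}ᶜ from fun _ hy => ne_of_gt hy))
  obtain ⟨σ, n, s1, s2⟩ := (ev.and (Ioo_mem_nhdsGT (show (1 : ℝ) < 1 + δ by linarith))).exists
  set k : ℝ := 1 / (2 * (2 + δ)) with hk
  have k0 : 0 < k := by positivity
  have k1 : (2 + δ) * k = 1 / 2 := by rw [hk]; field_simp
  set p : E3 := !₂[√σ * k, 0, k] with hp
  have p0 : p 0 ^ 2 + p 1 ^ 2 = σ * p 2 ^ 2 := by
    simp [hp, mul_pow, Real.sq_sqrt (show 0 ≤ σ by linarith)]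
  have p2 : p 2 = k := rfl
  have q : 0 < p 2 ^ 2 := by rw [p2]; positivity
  have pm : p ∈ Om δ := by
    have l1 : p 0 ^ 2 + p 1 ^ 2 < (1 + δ) * p 2 ^ 2 := by rw [p0]; gcongr
    refine ⟨(norm_le_z hδ k0.le l1.le).trans_lt (by rw [p2, k1]; norm_num), k0, ?_, l1⟩
    rw [p0]; nlinarith
  have pw : wf a p = 1 + a * σ := by rw [wf, sg, p0, mul_div_cancel_right₀ _ q.ne']
  have c : ContinuousAt (fun x => ‖h (wf a x)‖) p :=
    ((hh.continuousOn.comp (cd_wf.continuousOn.mono fun _ hx => hx.1) fun _ hx => hx.2).continuousAt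
      ((isOpen_Dm hU).mem_nhds (Om_sub hm pm))).norm
  have n0 : 0 < ‖h (1 + a * σ)‖ := norm_pos_iff.2 n
  obtain ⟨r, r0, hr⟩ := nhds_basis_closedBall.eventually_iff.1
    ((c.eventually (lt_mem_nhds (show ‖h (1 + a * σ)‖ / 2 < ‖h (wf a p)‖ by rw [pw]; linarith))).and
      (isOpen_Om.mem_nhds pm))
  refine ⟨p, r, _, r0, half_pos n0, fun t t0 t1 x hx => ?_⟩
  obtain ⟨y, rfl⟩ : ∃ y : E3, x = t • y := ⟨t⁻¹ • x, by rw [smul_inv_smul₀ t0.ne']⟩
  rw [mem_closedBall, dist_smul₀, Real.norm_of_nonneg t0.le] at hx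
  obtain ⟨y1, y2⟩ := hr (le_of_mul_le_mul_left hx t0)
  have e : wf a (t • y) = wf a y := by
    have := y2.2.1
    simp only [wf, sg, PiLp.smul_apply, smul_eq_mul]
    congr 3
    field_simp
  have t2 : 0 < t ^ 2 := by positivity
  refine ⟨⟨?_, mul_pos t0 y2.2.1, ?_, ?_⟩, mul_lt_of_lt_one_right t0 (z_lt y2).2, e ▸ y1.le⟩
  · rw [norm_smul, Real.norm_of_nonneg t0.le]
    exact mul_lt_one_of_nonneg_of_lt_one_right t1 (norm_nonneg _) y2.1
  · simp only [PiLp.smul_apply, smul_eq_mul, mul_pow]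
    nlinarith [mul_lt_mul_of_pos_left y2.2.2.1 t2]
  · simp only [PiLp.smul_apply, smul_eq_mul, mul_pow]
    nlinarith [mul_lt_mul_of_pos_left y2.2.2.2 t2]

theorem main : ∃ (d : Fin 3 → ℂ) (δ c : ℝ), 0 < δ ∧ 0 < c ∧ (∀ i, c ≤ (d i).re) ∧
    ∃ f, IsTest (Om δ) f ∧ ∀ u, IsSolution (diagM d) (Om δ) f u →
      ∀ r, 0 < r → ∀ C, ∃ x ∈ Om δ, ‖x‖ < r ∧ C < ‖u x‖ := by
  obtain ⟨ν, a, δ, U, h, n1, n2, ha, hδ, hU, hm, hh, ho, z1, z2, z3⟩ := exists_profile
  set η : ℝ := a.im / (1 + |a.re|) with hη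
  have η0 : 0 < η := by positivity
  have η1 : 0 < η * a.re + a.im := by
    have : η * (1 + |a.re|) = a.im := div_mul_cancel₀ _ (by positivity)
    nlinarith [mul_le_mul_of_nonneg_left (neg_abs_le a.re) η0.le]
  set l : ℂ := η - Complex.I with hl
  have hc := lt_min η0 η1
  have hd : ∀ i, min η (η * a.re + a.im) ≤ (dv l a i).re := by
    intro i
    fin_cases i <;> simp [dv, hl]
  refine ⟨dv l a, δ, _, hδ, hc, hd, ?_⟩
  by_contra H
  push Not at H
  have hν : ν.re ≤ 0 := by linarith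
  have ms := (isOpen_Om (δ := δ)).measurableSet
  obtain ⟨L, L0, hL⟩ := prof_bound hδ hU hm hh z1 z2
  obtain ⟨C, C0, hC⟩ := Rr_bound (l := l) (a := a) (h := h) (δ := δ) hν L0 fun x hx => by
    have m := sg_mem hx.2.1 hx.2.2.1.le hx.2.2.2.le
    rw [wf, add_sub_cancel_left]
    exact (hL _ m.1 m.2).2
  have mR : ∀ s, 0 < s → MemLp (Rr l a ν h s) 2 (volume.restrict (Om δ)) := fun s hs =>
    Rr_memLp hU hm hh ho (hC s hs)
  set s₀ : ℝ := 1 / (4 * (2 + δ)) with hs₀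
  have s0 : 0 < s₀ := by positivity
  have s1 : (2 + δ) * (2 * s₀) < 1 := by
    rw [hs₀]; field_simp; norm_num
  obtain ⟨W, G, hW, wW⟩ := exists_weak isOpen_Om (fun x hx => z_lt hx) hc hd (mR s₀ s0)
  set V := sep a (fun t => (1 - chi (t / s₀)) * pw ν t) h with hV
  have cV : ContDiffOn ℝ ∞ V (Om δ) :=
    (cd_sep hU ((contDiff_const.sub (cd_chis s₀)).contDiffOn.mul cd_pw) hh).mono (Om_sub hm)
  have key : ∀ f, IsTest (Om δ) f → ∫ x in Om δ, f x * (W x + V x) = 0 := by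
    intro f hf
    obtain ⟨u, ⟨hu, su⟩, r, hr, M, hM⟩ := H f hf
    obtain ⟨g, hu⟩ := inH10_iff.1 hu
    have w : ∀ φ, IsTest (Om δ) φ →
        ∑ i, dv l a i * ∫ x in Om δ, g i x * pd i φ x = -∫ x in Om δ, f x * φ x := fun φ hφ => by
      rw [hu.green_test isOpen_Om hφ, su φ hφ]
    have e1 := hW.extend hu.2.1 (hf.memLp _) w
    have e2 := hu.extend hW.2.1 (mR s₀ s0) wW
    have e3 : ∫ x in Om δ, f x * W x = ∫ x in Om δ, u x * Rr l a ν h s₀ x := by
      refine neg_injective (e1.symm.trans (Eq.trans ?_ (e2.trans ?_))) <;> simp only [mul_comm]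
    obtain ⟨m, m0, hm'⟩ := hf.2.1.isCompact.exists_forall_le' (f := fun x : E3 => x 2) (a := 0)
      (by fun_prop) fun x hx => (hf.2.2 hx).2.1
    have lim := Rr_tendsto hδ n1 C0 hC hr hM
    have e4 : (0 : ℂ) = (∫ x in Om δ, u x * Rr l a ν h s₀ x) + ∫ x in Om δ, f x * V x := by
      refine tendsto_nhds_unique lim (tendsto_const_nhds.congr' ?_)
      filter_upwards [Ioo_mem_nhdsGT (lt_min s0 (half_pos m0))] with s hs
      have k := trunc hδ hν hU hm hh ho L0 (fun σ a b => (hL σ a b).1) hs.1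
        (hs.2.le.trans (min_le_left _ _)) s1 hu (hf.memLp _) w
      have iu : ∀ s, 0 < s → Integrable (fun x => u x * Rr l a ν h s x) (volume.restrict (Om δ)) :=
        fun s hs => hu.1.integrable_mul (mR s hs)
      rw [integral_sub (iu s hs.1) (iu s₀ s0), sub_eq_iff_eq_add'] at k
      rw [k]
      congr 1
      refine integral_congr_ae (Eventually.of_forall fun x => ?_)
      by_cases hx : x ∈ tsupport f
      · have : 2 ≤ x 2 / s := by
          rw [le_div_iff₀ hs.1]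
          linarith [hm' x hx, hs.2.trans_le (min_le_right _ _)]
        simp only [chi_one this, hV, sep]
      · simp only [image_eq_zero_of_notMem_tsupport hx, zero_mul]
    simp only [mul_add]
    have iw : Integrable (fun x => f x * W x) (volume.restrict (Om δ)) :=
      (hf.memLp _).integrable_mul hW.1
    rw [integral_add iw (hf.mul isOpen_Om hf.2.2 cV).integrable.integrableOn, e3, ← e4]
  have ae : ∀ᵐ x ∂volume.restrict (Om δ), W x + V x = 0 := by
    rw [ae_restrict_iff' ms]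
    refine isOpen_Om.ae_eq_zero_of_integral_contDiff_smul_eq_zero (f := fun x => W x + V x)
      ((IntegrableOn.locallyIntegrableOn (hW.1.integrable one_le_two)).add
        (cV.continuousOn.locallyIntegrableOn ms)) fun g g1 g2 g3 => ?_
    have t : IsTest (Om δ) fun x => (g x : ℂ) := ⟨Complex.ofRealCLM.contDiff.comp g1,
      g2.comp_left (g := fun z : ℝ => (z : ℂ)) (by simp), (closure_mono
        (Function.support_comp_subset (g := fun z : ℝ => (z : ℂ)) (by simp) g)).trans g3⟩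
    rw [← key _ t, setIntegral_eq_integral_of_forall_compl_eq_zero fun x hx => by
      rw [image_eq_zero_of_notMem_tsupport fun k => hx (g3 k)]; simp]
    simp only [Complex.real_smul]
  obtain ⟨p, r, c, r0, c0, hb⟩ := exists_ball hδ hU hm hh (fun k => by simp [k] at ha) z1 z3
  set v := volume.real (ball (0 : E3) 1)
  have v0 : 0 < v := ENNReal.toReal_pos (measure_ball_pos _ _ one_pos).ne' measure_ball_lt_top.ne
  have iW : IntegrableOn (fun x => ‖W x‖ ^ 2) (Om δ) :=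
    (memLp_two_iff_integrable_sq_norm hW.1.1).1 hW.1
  have big := ((tendsto_rpow_neg_nhdsGT_zero (show 2 * ν.re + 1 < 0 by linarith)).atTop_mul_const
    (show 0 < c ^ 2 * r ^ 3 * v by positivity)).eventually_gt_atTop (12 * ∫ x in Om δ, ‖G 2 x‖ ^ 2)
  obtain ⟨t, t1, t0, t2⟩ := (big.and (Ioo_mem_nhdsGT (lt_min s0 one_pos))).exists
  have hb' := hb t t0 (t2.le.trans (min_le_right _ _))
  have sub : closedBall (t • p) (t * r) ⊆ Om δ ∩ {x | x 2 < t} := fun x hx =>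
    ⟨(hb' x hx).1, (hb' x hx).2.1⟩
  have i1 := hW.hardy isOpen_Om (fun x hx => hx.2.1) t0
  have i2 := setIntegral_mono_set (iW.mono_set inter_subset_left)
    (Eventually.of_forall fun x => sq_nonneg _) sub.eventuallyLE
  have i3 : ∫ _ in closedBall (t • p) (t * r), (t ^ ν.re * c) ^ 2
      ≤ ∫ x in closedBall (t • p) (t * r), ‖W x‖ ^ 2 := by
    refine integral_mono_ae (integrableOn_const measure_closedBall_lt_top.ne)
      (iW.mono_set (sub.trans inter_subset_left)) ?_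
    filter_upwards [ae_restrict_of_ae_restrict_of_subset (sub.trans inter_subset_left) ae,
      ae_restrict_mem measurableSet_closedBall] with x h1 h2
    obtain ⟨b1, b2, b3⟩ := hb' x h2
    rw [eq_neg_of_add_eq_zero_left h1, norm_neg, hV, sep,
      chi_zero ((div_le_one s0).2 (b2.le.trans (t2.le.trans (min_le_left _ _)))), sub_zero, one_mul,
      norm_mul, norm_pw b1.2.1]
    exact pow_le_pow_left₀ (by positivity) (mul_le_mul (Real.rpow_le_rpow_of_nonpos b1.2.1 b2.le hν)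
      b3 c0.le (Real.rpow_nonneg b1.2.1.le _)) 2
  rw [setIntegral_const, vol_ball _ (by positivity), smul_eq_mul] at i3
  have e : (t * r) ^ 3 * v * (t ^ ν.re * c) ^ 2 = t ^ 2 * (t ^ (2 * ν.re + 1) * (c ^ 2 * r ^ 3 * v)) := by
    rw [Real.rpow_add_one t0.ne', mul_comm 2, Real.rpow_mul t0.le, Real.rpow_two]; ring
  have := mul_lt_mul_of_pos_left t1 (show 0 < t ^ 2 by positivity)
  linarith

end Pool.Agent.Lib.MP_322279_an
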