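import Mathlib

/-!
Power series solutions of a hypergeometric equation near its singular point `w = 0`.
-/

namespace Pool.Agent.Lib.MP_322279_an

open Set Metric Filter Topology Complex

/-- Sum of a power series. -/
noncomputable def ps (c : ℕ → ℂ) (w : ℂ) : ℂ := ∑' n, c n * w ^ n

/-- Coefficients of the derivative. -/
def dc (c : ℕ → ℂ) (n : ℕ) : ℂ := (n + 1) * c (n + 1)

lemma dc_bound {c : ℕ → ℂ} {C M : ℝ} (hM : 0 < M) (h : ∀ n, ‖c n‖ ≤ C * M ^ n) (n : ℕ) :
    ‖dc c n‖ ≤ (C * M) * (2 * M) ^ n := by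
  have h1 : ((n : ℝ) + 1) ≤ 2 ^ n := by
    have := Nat.lt_two_pow_self (n := n)
    exact_mod_cast this
  have hC : 0 ≤ C := by simpa using (norm_nonneg _).trans (h 0)
  rw [dc, norm_mul]
  have h2 : ‖((n : ℂ) + 1)‖ = n + 1 := by
    rw [← Nat.cast_succ, Complex.norm_natCast]; push_cast; ring
  rw [h2]
  calc ((n : ℝ) + 1) * ‖c (n + 1)‖ ≤ 2 ^ n * (C * M ^ (n + 1)) := by
        gcongr; exact h _
    _ = (C * M) * (2 * M) ^ n := by rw [mul_pow]; ring

lemma summable_ps {c : ℕ → ℂ} {C M : ℝ} (hM : 0 < M) (h : ∀ n, ‖c n‖ ≤ C * M ^ n) {w : ℂ}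
    (hw : ‖w‖ < 1 / M) : Summable fun n => c n * w ^ n := by
  have h1 : M * ‖w‖ < 1 := by rwa [lt_div_iff₀ hM, mul_comm] at hw
  refine Summable.of_norm_bounded
    ((summable_geometric_of_lt_one (by positivity) h1).mul_left C) fun n => ?_
  rw [norm_mul, norm_pow, mul_pow, ← mul_assoc]
  gcongr; exact h n

lemma hasDerivAt_ps {c : ℕ → ℂ} {C M : ℝ} (hM : 0 < M) (h : ∀ n, ‖c n‖ ≤ C * M ^ n) {w : ℂ}
    (hw : ‖w‖ < 1 / (2 * M)) : HasDerivAt (ps c) (ps (dc c) w) w := by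
  have hC : 0 ≤ C := by simpa using (norm_nonneg _).trans (h 0)
  have hu : Summable fun n : ℕ => (2 * C * M) * ((n : ℝ) ^ 1 * (1 / 2 : ℝ) ^ n) :=
    (summable_pow_mul_geometric_of_norm_lt_one 1 (by norm_num)).mul_left _
  have hb : ∀ (n : ℕ) (y : ℂ), y ∈ ball (0 : ℂ) (1 / (2 * M)) →
      ‖c n * (n * y ^ (n - 1))‖ ≤ (2 * C * M) * ((n : ℝ) ^ 1 * (1 / 2 : ℝ) ^ n) := by
    intro n y hy
    rw [mem_ball_zero_iff] at hy
    rcases n with _ | n
    · simp
    · rw [norm_mul, norm_mul, norm_pow, Complex.norm_natCast, Nat.add_sub_cancel]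
      calc ‖c (n + 1)‖ * (((n + 1 : ℕ) : ℝ) * ‖y‖ ^ n)
          ≤ (C * M ^ (n + 1)) * (((n + 1 : ℕ) : ℝ) * (1 / (2 * M)) ^ n) := by
            gcongr; exact h _
        _ = _ := by
            rw [div_pow, div_pow, mul_pow, one_pow, one_pow]; field_simp; ring
  have key := hasDerivAt_tsum_of_isPreconnected (g := fun n y => c n * y ^ n)
    (g' := fun n y => c n * (n * y ^ (n - 1))) hu isOpen_ball (convex_ball _ _).isPreconnected
    (fun n y _ => (hasDerivAt_pow n y).const_mul (c n)) hb (y₀ := 0)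
    (mem_ball_self (by positivity))
    (summable_ps hM h (by simpa using hM)) (mem_ball_zero_iff.2 hw)
  have hs : Summable fun n : ℕ => c n * (n * w ^ (n - 1)) :=
    Summable.of_norm_bounded hu fun n => hb n w (mem_ball_zero_iff.2 hw)
  rw [hs.tsum_eq_zero_add] at key
  have e : ps (dc c) w = c 0 * (((0 : ℕ) : ℂ) * w ^ (0 - 1))
      + ∑' b : ℕ, c (b + 1) * (((b + 1 : ℕ) : ℂ) * w ^ (b + 1 - 1)) := by
    simp only [ps, dc, Nat.cast_zero, zero_mul, mul_zero, zero_add, Nat.add_sub_cancel]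
    refine tsum_congr fun n => ?_
    push_cast; ring
  rw [e]; exact key

lemma hasSum_shift {d : ℕ → ℂ} {w S : ℂ} (h0 : d 0 = 0)
    (h : HasSum (fun n => d (n + 1) * w ^ n) S) : HasSum (fun n => d n * w ^ n) (w * S) := by
  rw [← hasSum_nat_add_iff' 1]
  simp only [Finset.range_one, Finset.sum_singleton, h0, zero_mul, sub_zero]
  have e : (fun n => d (n + 1) * w ^ (n + 1)) = fun n => w * (d (n + 1) * w ^ n) := by
    funext n; ring
  rw [e]; exact h.mul_left w

/-- The equation for the angular profile of a homogeneous axisymmetric solution. -/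
noncomputable def ode (ν : ℂ) (G : ℂ → ℂ) (w : ℂ) : ℂ :=
  4 * w * (w - 1) * deriv (deriv G) w + (4 - (4 * ν - 6) * (w - 1)) * deriv G w + ν * (ν - 1) * G w

/-- Coefficients of the solution that is analytic at `0`. -/
noncomputable def coef (ν : ℂ) : ℕ → ℂ
  | 0 => 1
  | n + 1 => coef ν n * ((2 * n - ν) * (2 * n - ν + 1) / (4 * (n + 1) * (n - (ν - 1 / 2))))

lemma den_bound {ν : ℂ} (h1 : ν.re ≤ 0) (n : ℕ) :
    ((n : ℝ) + 1) / 4 ≤ ‖(n : ℂ) - (ν - 1 / 2)‖ := by
  refine le_trans ?_ (Complex.re_le_norm _)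
  simp only [Complex.sub_re, Complex.natCast_re, one_div, Complex.inv_re, Complex.re_ofNat,
    Complex.normSq_ofNat]
  have : (0 : ℝ) ≤ n := n.cast_nonneg
  linarith

lemma coef_bound {ν : ℂ} (h0 : ‖ν‖ ≤ 2) (h1 : ν.re ≤ 0) (n : ℕ) : ‖coef ν n‖ ≤ 1 * 6 ^ n := by
  induction n with
  | zero => simp [coef]
  | succ n ih =>
    rw [coef, norm_mul, pow_succ, ← mul_assoc]
    have hn : (0 : ℝ) ≤ n := n.cast_nonneg
    have a1 : ‖(2 * n - ν : ℂ)‖ ≤ 2 * (n + 1) := by
      refine (norm_sub_le _ _).trans ?_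
      rw [norm_mul, Complex.norm_natCast]; simp only [Complex.norm_ofNat]; linarith
    have a2 : ‖(2 * n - ν + 1 : ℂ)‖ ≤ 3 * (n + 1) := by
      refine (norm_add_le _ _).trans ?_
      rw [norm_one]; linarith
    have a3 : ‖((n : ℂ) + 1)‖ = n + 1 := by
      rw [← Nat.cast_succ, Complex.norm_natCast]; push_cast; ring
    have a4 := den_bound h1 n
    have a5 : ‖(2 * n - ν) * (2 * n - ν + 1) / (4 * (n + 1) * (n - (ν - 1 / 2)))‖ ≤ 6 := by
      rw [norm_div, norm_mul, norm_mul, norm_mul, a3, Complex.norm_ofNat,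
        div_le_iff₀ (mul_pos (by positivity) (lt_of_lt_of_le (by positivity) a4))]
      calc _ ≤ (2 * ((n : ℝ) + 1)) * (3 * (n + 1)) := by gcongr
        _ = 6 * (4 * ((n : ℝ) + 1) * ((n + 1) / 4)) := by ring
        _ ≤ _ := by gcongr
    gcongr

lemma exists_analytic_sol {ν : ℂ} (h0 : ‖ν‖ ≤ 2) (h1 : ν.re ≤ 0) :
    ∃ F : ℂ → ℂ, F 0 = 1 ∧ DifferentiableOn ℂ F (ball 0 (1 / 48)) ∧
      ∀ w ∈ ball (0 : ℂ) (1 / 48), ode ν F w = 0 := by
  set c := coef ν with hc
  have b0 := coef_bound h0 h1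
  have b1 := dc_bound (by norm_num) b0
  have b2 := dc_bound (by norm_num) b1
  have d0 : ∀ w ∈ ball (0 : ℂ) (1 / 48), HasDerivAt (ps c) (ps (dc c) w) w := fun w hw =>
    hasDerivAt_ps (by norm_num) b0 (lt_trans (mem_ball_zero_iff.1 hw) (by norm_num))
  have d1 : ∀ w ∈ ball (0 : ℂ) (1 / 48), HasDerivAt (ps (dc c)) (ps (dc (dc c)) w) w := fun w hw =>
    hasDerivAt_ps (by norm_num) b1 (lt_trans (mem_ball_zero_iff.1 hw) (by norm_num))
  refine ⟨ps c, ?_, fun w hw => (d0 w hw).differentiableAt.differentiableWithinAt, fun w hw => ?_⟩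
  · rw [ps, tsum_eq_single 0]
    · simp [hc, coef]
    · intro n hn; simp [hn]
  have e1 : deriv (ps c) =ᶠ[𝓝 w] ps (dc c) := by
    filter_upwards [isOpen_ball.mem_nhds hw] with y hy using (d0 y hy).deriv
  have hw' := mem_ball_zero_iff.1 hw
  have s0 := (summable_ps (by norm_num) b0 (w := w) (lt_trans hw' (by norm_num))).hasSum
  have s1 := (summable_ps (by norm_num) b1 (w := w) (lt_trans hw' (by norm_num))).hasSum
  have s2 := (summable_ps (by norm_num) b2 (w := w) (lt_trans hw' (by norm_num))).hasSum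
  have t1 : HasSum (fun n : ℕ => (n * c n) * w ^ n) (w * ps (dc c) w) :=
    hasSum_shift (d := fun n => n * c n) (by simp) (by
      have : (fun n : ℕ => (((n + 1 : ℕ) : ℂ) * c (n + 1)) * w ^ n) = fun n => dc c n * w ^ n := by
        funext n; simp [dc]
      rw [this]; exact s1)
  have t2 : HasSum (fun n : ℕ => (n * dc c n) * w ^ n) (w * ps (dc (dc c)) w) :=
    hasSum_shift (d := fun n => n * dc c n) (by simp) (by
      have : (fun n : ℕ => (((n + 1 : ℕ) : ℂ) * dc c (n + 1)) * w ^ n)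
          = fun n => dc (dc c) n * w ^ n := by
        funext n; simp [dc]
      rw [this]; exact s2)
  have t3 : HasSum (fun n : ℕ => ((n - 1) * n * c n) * w ^ n) (w * (w * ps (dc (dc c)) w)) :=
    hasSum_shift (d := fun n => (n - 1) * n * c n) (by simp) (by
      have : (fun n : ℕ => ((((n + 1 : ℕ) : ℂ) - 1) * ((n + 1 : ℕ) : ℂ) * c (n + 1)) * w ^ n)
          = fun n : ℕ => (n * dc c n) * w ^ n := by
        funext n; simp only [dc]; push_cast; ring
      rw [this]; exact t2)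
  have tot := ((((t3.mul_left 4).sub (t2.mul_left 4)).add (s1.mul_left (4 * ν - 2))).sub
    (t1.mul_left (4 * ν - 6))).add (s0.mul_left (ν * (ν - 1)))
  have z : (fun n : ℕ => 4 * (((n - 1) * n * c n) * w ^ n) - 4 * ((n * dc c n) * w ^ n)
      + (4 * ν - 2) * (dc (coef ν) n * w ^ n) - (4 * ν - 6) * ((n * c n) * w ^ n)
      + ν * (ν - 1) * (coef ν n * w ^ n)) = fun _ => 0 := by
    funext n
    have n1 : ((n : ℂ) + 1) ≠ 0 := by exact_mod_cast n.succ_ne_zero
    have n2 : (n : ℂ) - (ν - 1 / 2) ≠ 0 := by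
      intro h
      have := den_bound h1 n
      rw [h, norm_zero] at this
      have hn : (0 : ℝ) ≤ n := n.cast_nonneg
      linarith
    have n3 : dc (coef ν) n * (4 * (n - (ν - 1 / 2))) = coef ν n * ((2 * n - ν) * (2 * n - ν + 1)) := by
      simp only [dc, coef]
      generalize (n : ℂ) - (ν - 1 / 2) = t at n2
      field_simp
    simp only [hc]
    linear_combination (-w ^ n) * n3
  rw [z] at tot
  have := tot.unique hasSum_zero
  rw [ode, e1.deriv_eq, (d1 w hw).deriv, (d0 w hw).deriv]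
  simp only [ps, hc] at this ⊢
  linear_combination this

end Pool.Agent.Lib.MP_322279_an
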