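import Pool.Agent.Lib.MP_322279_an.Calc

/-!
The weak formulation of the Dirichlet problem for diagonal operators and its solvability.
-/

namespace Pool.Agent.Lib.MP_322279_an

open MeasureTheory Set Filter Topology ComplexConjugate
open scoped ContDiff

variable {Ω : Set E3} {μ : Measure E3} {u v f ψ : E3 → ℂ} {g : Fin 3 → E3 → ℂ} {d : Fin 3 → ℂ}

lemma norm_sq_Lp (U : Lp ℂ 2 μ) : ‖U‖ ^ 2 = ∫ x, ‖U x‖ ^ 2 ∂μ := by
  have h : (inner ℂ U U : ℂ) = ((∫ x, ‖U x‖ ^ 2 ∂μ : ℝ) : ℂ) := by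
    rw [L2.inner_def, ← integral_complex_ofReal]
    refine integral_congr_ae (Eventually.of_forall fun x => ?_)
    simp only [inner_self_eq_norm_sq_to_K]; push_cast; rfl
  rw [inner_self_eq_norm_sq_to_K] at h
  apply Complex.ofReal_injective
  rw [← h]; push_cast; rfl

lemma norm_sq_toLp (hu : MemLp u 2 μ) : ‖hu.toLp u‖ ^ 2 = ∫ x, ‖u x‖ ^ 2 ∂μ := by
  rw [norm_sq_Lp]
  refine integral_congr_ae ?_
  filter_upwards [hu.coeFn_toLp] with x hx
  rw [hx]

lemma tendsto_pair {φ : ℕ → E3 → ℂ} (hφ : ∀ k, MemLp (φ k) 2 μ) (hu : MemLp u 2 μ)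
    (hv : MemLp v 2 μ) (h : Tendsto (fun k => eLpNorm (φ k - u) 2 μ) atTop (𝓝 0)) :
    Tendsto (fun k => ∫ x, φ k x * v x ∂μ) atTop (𝓝 (∫ x, u x * v x ∂μ)) := by
  have h1 := (Lp.tendsto_Lp_iff_tendsto_eLpNorm'' φ hφ u hu).2 h
  have e : ∀ {w : E3 → ℂ} (hw : MemLp w 2 μ), (ContinuousLinearMap.mul ℂ ℂ).lpPairing μ 2 2
      (hw.toLp w) (hv.toLp v) = ∫ x, w x * v x ∂μ := by
    intro w hw
    rw [ContinuousLinearMap.lpPairing_eq_integral]
    refine integral_congr_ae ?_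
    filter_upwards [hw.coeFn_toLp, hv.coeFn_toLp] with x h1 h2
    simp [h1, h2]
  have c : Continuous fun W : Lp ℂ 2 μ =>
      (ContinuousLinearMap.mul ℂ ℂ).lpPairing μ 2 2 W (hv.toLp v) := by fun_prop
  have := (c.tendsto _).comp h1
  simpa only [Function.comp_def, e] using this

lemma tendsto_sq {φ : ℕ → E3 → ℂ} (hφ : ∀ k, MemLp (φ k) 2 μ) (hu : MemLp u 2 μ)
    (h : Tendsto (fun k => eLpNorm (φ k - u) 2 μ) atTop (𝓝 0)) :
    Tendsto (fun k => ∫ x, ‖φ k x‖ ^ 2 ∂μ) atTop (𝓝 (∫ x, ‖u x‖ ^ 2 ∂μ)) := by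
  have h1 := ((Lp.tendsto_Lp_iff_tendsto_eLpNorm'' φ hφ u hu).2 h).norm.pow 2
  simpa only [norm_sq_toLp] using h1

/-- `u` lies in the Sobolev space with zero boundary values and has gradient `g`. -/
def HG (Ω : Set E3) (u : E3 → ℂ) (g : Fin 3 → E3 → ℂ) : Prop :=
  MemLp u 2 (volume.restrict Ω) ∧ (∀ i, MemLp (g i) 2 (volume.restrict Ω)) ∧
    ∃ φ : ℕ → E3 → ℂ, (∀ k, IsTest Ω (φ k)) ∧
    Tendsto (fun k => eLpNorm (φ k - u) 2 (volume.restrict Ω)) atTop (𝓝 0) ∧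
    ∀ i, Tendsto (fun k => eLpNorm (pd i (φ k) - g i) 2 (volume.restrict Ω)) atTop (𝓝 0)

lemma inH10_iff : InH10 Ω u ↔ ∃ g, HG Ω u g :=
  ⟨fun ⟨a, g, φ, b, c⟩ => ⟨g, a, b, φ, c⟩, fun ⟨g, a, b, φ, c⟩ => ⟨a, g, φ, b, c⟩⟩

/-- The diagonal matrix with entries `d`. -/
def diagM (d : Fin 3 → ℂ) (i j : Fin 3) : ℂ := if i = j then d i else 0

lemma op_diag (x : E3) : op (diagM d) ψ x = ∑ i, d i * pd i (pd i ψ) x := by
  simp [op, diagM]

/-- Green's formula. -/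
lemma HG.green (h : HG Ω u g) (hΩ : IsOpen Ω) (hψ : ContDiffOn ℝ ∞ ψ Ω)
    (h1 : ∀ i, MemLp (pd i ψ) 2 (volume.restrict Ω))
    (h2 : MemLp (op (diagM d) ψ) 2 (volume.restrict Ω)) :
    ∑ i, d i * ∫ x in Ω, g i x * pd i ψ x = -∫ x in Ω, u x * op (diagM d) ψ x := by
  obtain ⟨hu, hg, φ, t, c0, c1⟩ := h
  have l1 := tendsto_finsetSum Finset.univ fun i _ =>
    (tendsto_pair (fun k => ((t k).dpd i).memLp _) (hg i) (h1 i) (c1 i)).const_mul (d i)
  have l2 := (tendsto_pair (fun k => (t k).memLp _) hu h2 c0).neg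
  refine tendsto_nhds_unique l1 (l2.congr fun k => ?_)
  simp only [op_diag, Finset.mul_sum]
  rw [integral_finsetSum, ← Finset.sum_neg_distrib]
  · refine Finset.sum_congr rfl fun i _ => ?_
    rw [(t k).ibp hΩ (contDiffOn_pd hΩ hψ), mul_neg, ← integral_const_mul]
    congr 2; funext x; ring
  · intro i _
    exact ((t k).mul hΩ (t k).2.2 (contDiffOn_const.mul
      (contDiffOn_pd hΩ (contDiffOn_pd hΩ hψ)))).integrable.integrableOn

lemma IsTest.op (h : IsTest Ω ψ) : IsTest Ω (op (diagM d) ψ) := by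
  have : MP_322279_an.op (diagM d) ψ = fun x => (pd 0 (pd 0 ψ) x * d 0 + pd 1 (pd 1 ψ) x * d 1)
      + pd 2 (pd 2 ψ) x * d 2 := by
    funext x; rw [op_diag, Fin.sum_univ_three]; ring
  rw [this]
  have m : ∀ i, IsTest Ω fun x => pd i (pd i ψ) x * d i := fun i =>
    ((h.dpd i).dpd i).mul isOpen_univ (subset_univ _) contDiffOn_const
  exact ((m 0).add (m 1)).add (m 2)

lemma HG.green_test (h : HG Ω u g) (hΩ : IsOpen Ω) (hψ : IsTest Ω ψ) :
    ∑ i, d i * ∫ x in Ω, g i x * pd i ψ x = -∫ x in Ω, u x * op (diagM d) ψ x :=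
  h.green hΩ hψ.1.contDiffOn (fun i => (hψ.dpd i).memLp _) (hψ.op.memLp _)

/-- The weak equation extends from test functions to the Sobolev space. -/
lemma HG.extend {W : E3 → ℂ} {G : Fin 3 → E3 → ℂ} (hW : HG Ω W G)
    (hg : ∀ i, MemLp (g i) 2 (volume.restrict Ω)) (hf : MemLp f 2 (volume.restrict Ω))
    (h : ∀ φ, IsTest Ω φ → ∑ i, d i * ∫ x in Ω, g i x * pd i φ x = -∫ x in Ω, f x * φ x) :
    ∑ i, d i * ∫ x in Ω, g i x * G i x = -∫ x in Ω, f x * W x := by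
  obtain ⟨hu, hG, φ, t, c0, c1⟩ := hW
  have l1 := tendsto_finsetSum Finset.univ fun i _ =>
    (tendsto_pair (fun k => ((t k).dpd i).memLp _) (hG i) (hg i) (c1 i)).const_mul (d i)
  have l2 := (tendsto_pair (fun k => (t k).memLp _) hu hf c0).neg
  have := tendsto_nhds_unique l1 (l2.congr fun k => by simpa only [mul_comm] using (h _ (t k)).symm)
  simpa only [mul_comm] using this

lemma HG.hardy (h : HG Ω u g) (hΩ : IsOpen Ω) (hz : ∀ x ∈ Ω, 0 < x 2) {t : ℝ} (ht : 0 < t) :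
    ∫ x in Ω ∩ {x | x 2 < t}, ‖u x‖ ^ 2 ≤ 12 * t ^ 2 * ∫ x in Ω, ‖g 2 x‖ ^ 2 := by
  obtain ⟨hu, hg, φ, s, c0, c1⟩ := h
  have le : volume.restrict (Ω ∩ {x : E3 | x 2 < t}) ≤ volume.restrict Ω :=
    Measure.restrict_mono inter_subset_left le_rfl
  have l1 := tendsto_sq (fun k => (s k).memLp _) (hu.mono_measure le)
    (tendsto_of_tendsto_of_tendsto_of_le_of_le tendsto_const_nhds c0 (fun _ => zero_le)
      fun k => eLpNorm_mono_measure _ le)
  have l2 := (tendsto_sq (fun k => ((s k).dpd 2).memLp _) (hg 2) (c1 2)).const_mul (12 * t ^ 2)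
  exact le_of_tendsto_of_tendsto' l1 l2 fun k => (s k).hardy hΩ hz ht

/-- The ambient Hilbert space of pairs (function, gradient). -/
abbrev Amb (Ω : Set E3) : Type := PiLp 2 fun _ : Option (Fin 3) => Lp ℂ 2 (volume.restrict Ω)

/-- The jets of test functions. -/
def jets (Ω : Set E3) : Submodule ℂ (Amb Ω) where
  carrier := {U | ∃ φ, IsTest Ω φ ∧ U none =ᵐ[volume.restrict Ω] φ ∧
    ∀ i, U (some i) =ᵐ[volume.restrict Ω] pd i φ}
  zero_mem' := ⟨fun _ => 0, isTest_zero, Lp.coeFn_zero _ _ _, fun i =>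
    (Lp.coeFn_zero _ _ _).mono fun x hx => hx.trans (pd_const 0).symm⟩
  add_mem' := by
    rintro U V ⟨φ, t, a, b⟩ ⟨ψ, t', a', b'⟩
    refine ⟨_, t.add t', ?_, fun i => ?_⟩
    · filter_upwards [a, a', Lp.coeFn_add (U none) (V none)] with x h1 h2 h3
      rw [PiLp.add_apply, h3, Pi.add_apply, h1, h2]
    · filter_upwards [b i, b' i, Lp.coeFn_add (U (some i)) (V (some i))] with x h1 h2 h3
      rw [PiLp.add_apply, h3, Pi.add_apply, h1, h2, pd_add (t.diff x) (t'.diff x)]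
  smul_mem' := by
    rintro c U ⟨φ, t, a, b⟩
    refine ⟨fun x => φ x * c, t.mul isOpen_univ (subset_univ _) contDiffOn_const, ?_, fun i => ?_⟩
    · filter_upwards [a, Lp.coeFn_smul c (U none)] with x h1 h3
      rw [PiLp.smul_apply, h3, Pi.smul_apply, h1, smul_eq_mul, mul_comm]
    · filter_upwards [b i, Lp.coeFn_smul c (U (some i))] with x h1 h3
      rw [PiLp.smul_apply, h3, Pi.smul_apply, h1, smul_eq_mul,
        pd_mul (t.diff x) (differentiableAt_const c), pd_const]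
      ring

lemma hg_of_mem {U : Amb Ω} (hU : U ∈ (jets Ω).topologicalClosure) :
    HG Ω (U none) fun i => U (some i) := by
  obtain ⟨V, hV, l⟩ := mem_closure_iff_seq_limit.1 (show U ∈ closure (jets Ω : Set (Amb Ω)) from hU)
  choose φ t a b using hV
  have l' : ∀ o, Tendsto (fun k => eLpNorm (⇑(V k o) - ⇑(U o)) 2 (volume.restrict Ω)) atTop (𝓝 0) :=
    fun o => (Lp.tendsto_Lp_iff_tendsto_eLpNorm' _ _).1
      (((PiLp.proj (𝕜 := ℂ) 2 _ o).continuous.tendsto U).comp l)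
  refine ⟨Lp.memLp _, fun i => Lp.memLp _, φ, t, (l' none).congr fun k => ?_,
    fun i => (l' (some i)).congr fun k => ?_⟩
  · exact eLpNorm_congr_ae ((a k).sub EventuallyEq.rfl)
  · exact eLpNorm_congr_ae ((b k i).sub EventuallyEq.rfl)

/-- Solvability of the weak problem. -/
theorem exists_weak (hΩ : IsOpen Ω) (hz : ∀ x ∈ Ω, 0 < x 2 ∧ x 2 < 1) {c : ℝ} (hc : 0 < c)
    (hd : ∀ i, c ≤ (d i).re) (hf : MemLp f 2 (volume.restrict Ω)) :
    ∃ u g, HG Ω u g ∧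
      ∀ φ, IsTest Ω φ → ∑ i, d i * ∫ x in Ω, g i x * pd i φ x = -∫ x in Ω, f x * φ x := by
  set H := (jets Ω).topologicalClosure with hH
  haveI : CompleteSpace H := (jets Ω).isClosed_topologicalClosure.completeSpace_coe
  set e : Option (Fin 3) → ℂ := fun o => o.elim 0 d with he
  set D : Amb Ω →L[ℂ] Amb Ω := (PiLp.continuousLinearEquiv 2 ℂ _).symm.toContinuousLinearMap ∘L
    ContinuousLinearMap.pi fun o => e o • PiLp.proj 2 _ o with hD
  have D1 : ∀ U V : Amb Ω, inner ℂ V (D U) = ∑ i, d i * inner ℂ (V (some i)) (U (some i)) := by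
    intro U V
    rw [PiLp.inner_apply, Fintype.sum_option]
    have : ∀ o, D U o = e o • U o := fun o => rfl
    simp only [this, inner_smul_right, he, Option.elim, zero_mul, zero_add]
  set S : H →L[ℂ] H := H.orthogonalProjectionOnto ∘L D ∘L H.subtypeL with hS
  have S1 : ∀ U V : H, inner ℂ V (S U) = inner ℂ (V : Amb Ω) (D U) := fun U V =>
    H.inner_orthogonalProjectionOnto_eq_of_mem_left V _
  have unit : IsUnit S := by
    refine S.isUnit_of_forall_le_norm_inner_map (c := ⟨c / 13, by positivity⟩)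
      (show (0 : ℝ) < c / 13 by positivity) fun U => ?_
    rw [norm_inner_symm, S1, D1]
    refine le_trans ?_ (Complex.re_le_norm _)
    have h1 := (hg_of_mem U.2).hardy hΩ (fun x hx => (hz x hx).1) one_pos
    rw [inter_eq_left.2 (show Ω ⊆ {x : E3 | x 2 < 1} from fun x hx => (hz x hx).2), ← norm_sq_Lp, ← norm_sq_Lp] at h1
    have h2 : ‖U‖ ^ 2 = ‖(U : Amb Ω) none‖ ^ 2 + ∑ i, ‖(U : Amb Ω) (some i)‖ ^ 2 := by
      rw [← Fintype.sum_option (fun o => ‖(U : Amb Ω) o‖ ^ 2), ← PiLp.norm_sq_eq_of_L2]; rfl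
    have h3 : c * ∑ i, ‖(U : Amb Ω) (some i)‖ ^ 2
        ≤ (∑ i, d i * inner ℂ ((U : Amb Ω) (some i)) ((U : Amb Ω) (some i))).re := by
      rw [Complex.re_sum, Finset.mul_sum]
      refine Finset.sum_le_sum fun i _ => ?_
      rw [inner_self_eq_norm_sq_to_K]
      have : ((‖(U : Amb Ω) (some i)‖ : ℂ) ^ 2) = ((‖(U : Amb Ω) (some i)‖ ^ 2 : ℝ) : ℂ) := by
        push_cast; rfl
      refine le_trans (mul_le_mul_of_nonneg_right (hd i) (sq_nonneg _)) (le_of_eq ?_)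
      rw [← Complex.re_mul_ofReal, ← this]; rfl
    have h4 : ‖(U : Amb Ω) (some 2)‖ ^ 2 ≤ ∑ i, ‖(U : Amb Ω) (some i)‖ ^ 2 :=
      Finset.single_le_sum (f := fun i => ‖(U : Amb Ω) (some i)‖ ^ 2) (fun _ _ => sq_nonneg _)
        (Finset.mem_univ 2)
    refine le_trans ?_ h3
    rw [h2]
    change _ * (c / 13) ≤ _
    nlinarith
  obtain ⟨U, hU⟩ := (ContinuousLinearMap.isUnit_iff_bijective.1 unit).2
    (H.orthogonalProjectionOnto (PiLp.single 2 none (-hf.toLp f)))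
  refine ⟨_, _, hg_of_mem U.2, fun φ t => ?_⟩
  set V : Amb Ω := WithLp.toLp 2 fun o => match o with
    | none => (t.cj.memLp _).toLp _
    | some i => ((t.cj.dpd i).memLp _).toLp _ with hV
  have V0 : V none =ᵐ[volume.restrict Ω] fun x => conj (φ x) := (t.cj.memLp _).coeFn_toLp
  have V1 : ∀ i, V (some i) =ᵐ[volume.restrict Ω] pd i fun x => conj (φ x) := fun i =>
    ((t.cj.dpd i).memLp _).coeFn_toLp
  have m : V ∈ H := (jets Ω).le_topologicalClosure ⟨_, t.cj, V0, V1⟩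
  have k := S1 U ⟨V, m⟩
  rw [hU, H.inner_orthogonalProjectionOnto_eq_of_mem_left, D1, PiLp.inner_apply,
    Fintype.sum_option] at k
  simp only [PiLp.single_apply, if_true, reduceCtorEq, if_false, inner_zero_right,
    Finset.sum_const_zero, add_zero, inner_neg_right, L2.inner_def] at k
  have k1 : ∫ x in Ω, inner ℂ (V none x) (hf.toLp f x) = ∫ x in Ω, f x * φ x := by
    refine integral_congr_ae ?_
    filter_upwards [V0, hf.coeFn_toLp] with x h1 h2
    simp [h1, h2]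
  rw [← k1, k]
  refine Finset.sum_congr rfl fun i _ => ?_
  congr 1
  refine integral_congr_ae ?_
  filter_upwards [V1 i] with x h1
  simp [h1, pd_conj (t.diff x)]

end Pool.Agent.Lib.MP_322279_an
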