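import Pool.Agent.Lib.MP_322279_an.Main

/-!
A conical point in three dimensions that is not Wiener regular for a strongly elliptic operator
with constant complex coefficients.
-/

open Set Filter Topology Pool.Agent.Lib.MP_322279_an

theorem Pool.Agent.Lib.MP_322279_an.zone_counterexample :
    ∃ (A : Fin 3 → Fin 3 → ℂ) (h₁ h₂ : ℝ) (f : E3 → ℂ),
      (∀ i j, A i j = A j i) ∧
      (∃ c : ℝ, 0 < c ∧ ∀ ξ : E3, c * ‖ξ‖ ^ 2 ≤ (∑ i, ∑ j, A i j * ξ i * ξ j).re) ∧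
      0 < h₁ ∧ h₁ < h₂ ∧ h₂ < 1 ∧ IsTest (zoneCone h₁ h₂) f ∧
      (∃ u, IsSolution A (zoneCone h₁ h₂) f u) ∧
      ∀ u, IsSolution A (zoneCone h₁ h₂) f u →
        (∀ r : ℝ, 0 < r → ∀ C : ℝ, ∃ x ∈ zoneCone h₁ h₂, ‖x‖ < r ∧ C < ‖u x‖) ∧
        ¬ Tendsto u (𝓝[zoneCone h₁ h₂] 0) (𝓝 0) := by
  obtain ⟨d, δ, c, hδ, hc, hd, f, hf, H⟩ := main
  refine ⟨diagM d, 1 / √(2 + δ), 1 / √2, f, fun i j => ?_, ⟨c, hc, fun ξ => ?_⟩, by positivity,
    one_div_lt_one_div_of_lt (by positivity) (Real.sqrt_lt_sqrt (by norm_num) (by linarith)),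
    (div_lt_one (by positivity)).2 (Real.lt_sqrt_of_sq_lt (by norm_num)), ?_⟩
  · by_cases h : i = j
    · rw [h]
    · simp [diagM, h, Ne.symm h]
  · rw [EuclideanSpace.real_norm_sq_eq, Complex.re_sum, Finset.mul_sum]
    refine Finset.sum_le_sum fun i _ => ?_
    have : ∑ j, diagM d i j * ξ i * ξ j = d i * ((ξ i ^ 2 : ℝ) : ℂ) := by
      simp [diagM, sq, mul_assoc]
    rw [this, Complex.re_mul_ofReal]
    exact mul_le_mul_of_nonneg_right (hd i) (sq_nonneg _)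
  rw [zone_eq hδ]
  refine ⟨hf, ?_, fun u hu => ⟨H u hu, fun l => ?_⟩⟩
  · obtain ⟨u, g, h1, h2⟩ := exists_weak isOpen_Om (fun x hx => z_lt hx) hc hd (hf.memLp _)
    exact ⟨u, inH10_iff.2 ⟨g, h1⟩, fun φ hφ =>
      neg_injective ((h1.green_test isOpen_Om hφ).symm.trans (h2 φ hφ))⟩
  · obtain ⟨r, r0, hr⟩ := Metric.tendsto_nhdsWithin_nhds.1 l 1 one_pos
    obtain ⟨x, h1, h2, h3⟩ := H u hu r r0 1
    have := hr h1 (by simpa using h2)
    rw [dist_zero_right] at this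
    linarith
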